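import Mathlib
import Pool.Agent.H361R2.InfMain
import Pool.Agent.H361R2.InfB3
import Pool.Agent.H361R2.InfB4
import Pool.Agent.H361R2.InfB5

/-! A weighted sequence of blocks of integers: an infinite exact pattern meets blocks of total weight at
least `1 / 500`. -/

set_option autoImplicit false

namespace Pool.Agent.N790.BP

open Finset Filter Topology
open Pool.Agent.H361R2.Inf

/-- weighted averages over a finitely additive measure -/
theorem wsum_le {m : Set ℕ → ℝ} (hm : FMeas m) (A : ℕ → Set ℕ) (w : ℕ → ℝ) (J : ℕ) :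
    ∀ (c : ℝ) (S : Set ℕ), (∀ x ∈ S, ∑ t ∈ range J, w t * (A t).indicator (fun _ => (1 : ℝ)) x ≤ c) →
      ∑ t ∈ range J, w t * m (S ∩ A t) ≤ c * m S := by
  classical
  induction J with
  | zero =>
    intro c S hS
    rw [Finset.sum_range_zero]
    rcases S.eq_empty_or_nonempty with rfl | ⟨x, hx⟩
    · have h0 : m ∅ = 0 := hm.fin _ Set.finite_empty
      rw [h0, mul_zero]
    · have h1 := hS x hx
      rw [Finset.sum_range_zero] at h1
      exact mul_nonneg h1 (hm.nonneg _)
  | succ J ih =>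
    intro c S hS
    have hsplit : ∀ B : Set ℕ, m (S ∩ B) = m (S ∩ A J ∩ B) + m ((S \ A J) ∩ B) := by
      intro B
      rw [← hm.add]
      · congr 1
        ext n
        simp only [Set.mem_inter_iff, Set.mem_union, Set.mem_sdiff]
        tauto
      · rw [Set.disjoint_left]
        rintro n ⟨⟨_, h1⟩, _⟩ ⟨⟨_, h2⟩, _⟩
        exact h2 h1
    have hS12 : m S = m (S ∩ A J) + m (S \ A J) := by
      have := hsplit Set.univ
      simpa using this
    have h1 : ∑ t ∈ range J, w t * m ((S ∩ A J) ∩ A t) ≤ (c - w J) * m (S ∩ A J) := by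
      apply ih
      rintro x ⟨hx, hxA⟩
      have h := hS x hx
      rw [Finset.sum_range_succ, Set.indicator_of_mem hxA] at h
      linarith
    have h2 : ∑ t ∈ range J, w t * m ((S \ A J) ∩ A t) ≤ c * m (S \ A J) := by
      apply ih
      rintro x ⟨hx, hxA⟩
      have h := hS x hx
      rw [Finset.sum_range_succ, Set.indicator_of_notMem hxA] at h
      linarith
    rw [Finset.sum_range_succ]
    have h3 : ∑ t ∈ range J, w t * m (S ∩ A t) =
        ∑ t ∈ range J, w t * m ((S ∩ A J) ∩ A t) + ∑ t ∈ range J, w t * m ((S \ A J) ∩ A t) := by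
      rw [← Finset.sum_add_distrib]
      refine Finset.sum_congr rfl fun t _ => ?_
      rw [hsplit (A t)]
      ring
    rw [h3, hS12]
    nlinarith [h1, h2]

open Classical in
/-- the total weight of the blocks met by `I` -/
noncomputable def wt (off : ℕ → ℕ) (w : ℕ → ℝ) (J : ℕ) (I : Set ℕ) : ℝ :=
  ∑ t ∈ range J, if ∃ i ∈ Ico (off t) (off (t + 1)), i ∈ I then w t else 0

theorem hcombW (off : ℕ → ℕ) (hoff : StrictMono off) (w : ℕ → ℝ) (J : ℕ) (hw : ∀ t, 0 ≤ w t)
    (hw1 : ∑ t ∈ range J, w t = 1) :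
    ∀ (m : Set ℕ → ℝ), FMeas m → m Set.univ ≤ 2 → ∀ (E : ℕ → Set ℕ),
      (∀ t, (1 / 200 : ℝ) ≤ m {x | ∃ i ∈ Ico (off t) (off (t + 1)), x ∈ E i}) →
      ∃ I : Set ℕ, 1 / 500 ≤ wt off w J I ∧ ∀ N : ℕ, 0 < m {x | ∀ i < N, (x ∈ E i ↔ i ∈ I)} := by
  classical
  intro m hm hm2 E hE
  obtain ⟨I, hI1, hI2⟩ := comb2 m hm E (fun _ => off J) (fun _ => {I | 1 / 500 ≤ wt off w J I}) (by
    intro j I I' hII
    have e : wt off w J I = wt off w J I' := by
      unfold wt
      refine Finset.sum_congr rfl fun t ht => ?_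
      rw [Finset.mem_range] at ht
      have hle : off (t + 1) ≤ off J := hoff.monotone ht
      have e2 : (∃ i ∈ Ico (off t) (off (t + 1)), i ∈ I) ↔ (∃ i ∈ Ico (off t) (off (t + 1)), i ∈ I') := by
        constructor
        · rintro ⟨i, hi, h⟩
          rw [Finset.mem_Ico] at hi
          exact ⟨i, Finset.mem_Ico.2 hi, (hII i (by omega)).mp h⟩
        · rintro ⟨i, hi, h⟩
          rw [Finset.mem_Ico] at hi
          exact ⟨i, Finset.mem_Ico.2 hi, (hII i (by omega)).mpr h⟩
      by_cases h : ∃ i ∈ Ico (off t) (off (t + 1)), i ∈ I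
      · rw [if_pos h, if_pos (e2.mp h)]
      · rw [if_neg h, if_neg (fun h' => h (e2.mpr h'))]
    simp only [Set.mem_ofPred_eq, e]) (1 / 1000) (by norm_num) (by
    intro j
    set A : ℕ → Set ℕ := fun t => {x | ∃ i ∈ Ico (off t) (off (t + 1)), x ∈ E i} with hA
    set G : Set ℕ := {x | {i | x ∈ E i} ∈ {I : Set ℕ | 1 / 500 ≤ wt off w J I}} with hG
    have hwt : ∀ x, wt off w J {i | x ∈ E i} = ∑ t ∈ range J, w t * (A t).indicator (fun _ => (1 : ℝ)) x := by
      intro x
      unfold wt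
      refine Finset.sum_congr rfl fun t _ => ?_
      by_cases hx : x ∈ A t
      · rw [Set.indicator_of_mem hx, mul_one, if_pos]
        exact hx
      · rw [Set.indicator_of_notMem hx, mul_zero, if_neg]
        exact hx
    have h1 : ∑ t ∈ range J, w t * m (Gᶜ ∩ A t) ≤ 1 / 500 * m Gᶜ := by
      apply wsum_le hm
      intro x hx
      rw [← hwt]
      simp only [hG, Set.mem_compl_iff, Set.mem_ofPred_eq, not_le] at hx
      exact hx.le
    have h2 : ∑ t ∈ range J, w t * m (G ∩ A t) ≤ 1 * m G := by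
      apply wsum_le hm
      intro x _
      refine le_of_le_of_eq (Finset.sum_le_sum fun t _ => ?_) hw1
      by_cases hx : x ∈ A t
      · rw [Set.indicator_of_mem hx, mul_one]
      · rw [Set.indicator_of_notMem hx, mul_zero]
        exact hw t
    have h3 : (1 / 200 : ℝ) ≤ ∑ t ∈ range J, w t * m (A t) := by
      calc (1 / 200 : ℝ) = ∑ t ∈ range J, w t * (1 / 200) := by rw [← Finset.sum_mul, hw1, one_mul]
        _ ≤ _ := Finset.sum_le_sum fun t _ => mul_le_mul_of_nonneg_left (hE t) (hw t)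
    have h4 : ∑ t ∈ range J, w t * m (A t) =
        ∑ t ∈ range J, w t * m (Gᶜ ∩ A t) + ∑ t ∈ range J, w t * m (G ∩ A t) := by
      rw [← Finset.sum_add_distrib]
      refine Finset.sum_congr rfl fun t _ => ?_
      rw [← mul_add, ← hm.add]
      · congr 2
        ext x
        simp only [Set.mem_inter_iff, Set.mem_union, Set.mem_compl_iff]
        tauto
      · rw [Set.disjoint_left]
        rintro x ⟨h1, _⟩ ⟨h2, _⟩
        exact h1 h2
    have hGc : m Gᶜ ≤ 2 := (T1.mono hm (Set.subset_univ _)).trans hm2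
    linarith)
  refine ⟨I, ?_, hI2⟩
  obtain ⟨j, hj⟩ := hI1.exists
  exact hj

/-- the sets of shifts which are exact prime patterns, for the primes congruent to `r` modulo `q` -/
def Good (q : ℕ) (r : ℤ) (S : Set ℤ) : Prop :=
  (∀ a ∈ S, (q : ℤ) ∣ a) ∧ ∀ T : Finset ℤ,
    {n : ℕ | (n : ℤ) ≡ r [ZMOD q] ∧ ∀ t ∈ T, (Nat.Prime ((n : ℤ) + t).toNat ↔ t ∈ S)}.Infinite

/-- the block theorem for weighted blocks of shifts -/
theorem blocks : ∃ off : ℕ → ℕ, StrictMono off ∧ off 0 = 0 ∧ ∀ (q : ℕ) (r : ℤ), 1 ≤ q →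
    IsCoprime r (q : ℤ) → ∀ (w : ℕ → ℝ) (J : ℕ), (∀ t, 0 ≤ w t) → ∑ t ∈ range J, w t = 1 →
    ∀ b : ℕ → ℤ, Function.Injective b → (∀ i, (q : ℤ) ∣ b i) →
      (∀ p : ℕ, p.Prime → ¬ p ∣ q → ∃ x : ℤ, ∀ i, ¬ (p : ℤ) ∣ x + b i) →
      ∃ S : Set ℤ, Good q r S ∧ 1 / 500 ≤ wt off w J {i | b i ∈ S} := by
  obtain ⟨off, hoff, h0, hBM⟩ := exists_blockMeas
  refine ⟨off, hoff, h0, fun q r hq hqr w J hw hw1 b hb hqb hadm => ?_⟩
  -- the forms q x + (r' + b i) with r' the nonnegative representative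
  set r' : ℤ := r % q with hr'
  have hq0 : (0 : ℤ) < q := by exact_mod_cast hq
  have hr0 : 0 ≤ r' := Int.emod_nonneg _ hq0.ne'
  have hcop' : IsCoprime r' (q : ℤ) := by
    have h1 : r' = r + (-(r / q)) * q := by
      rw [hr', Int.emod_def]; ring
    rw [h1]
    exact IsCoprime.add_mul_right_left hqr _
  have hcop : ∀ i, IsCoprime (q : ℤ) (r' + b i) := by
    intro i
    obtain ⟨c, hc⟩ := hqb i
    rw [hc, mul_comm (q : ℤ) c]
    exact (IsCoprime.add_mul_right_left hcop' c).symm
  have hex := exact_seq_of (fun I => 1 / 500 ≤ wt off w J I) off (by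
    intro A B hA hne W r hW hWp hc hcop
    exact inf_class_of_combP (fun I => 1 / 500 ≤ wt off w J I) off hoff h0 (1 / 200) (by norm_num)
      (hcombW off hoff w J hw hw1) hBM A B hA hne W r hW hWp hc hcop)
    (fun _ => (q : ℤ)) (fun i => r' + b i) (fun _ => by exact_mod_cast hq) hcop (by
      intro i j hij
      simp only [Prod.mk.injEq, true_and, add_right_inj] at hij
      exact hb hij) (by
      intro p hp
      by_cases hpq : p ∣ q
      · refine ⟨0, fun i hdvd => ?_⟩
        have hpq' : (p : ℤ) ∣ q := by exact_mod_cast hpq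
        have h1 : (p : ℤ) ∣ r' + b i := by simpa using hdvd
        have h2 := (hcop i)
        have h3 : IsUnit (p : ℤ) := h2.isUnit_of_dvd' hpq' h1
        rw [Int.isUnit_iff] at h3
        have := hp.two_le
        omega
      · obtain ⟨x, hx⟩ := hadm p hp hpq
        have hcpq : IsCoprime (q : ℤ) (p : ℤ) :=
          (Int.isCoprime_iff_gcd_eq_one.2 (by
            rw [Int.gcd_natCast_natCast]
            exact (Nat.Prime.coprime_iff_not_dvd hp).2 hpq |>.symm))
        obtain ⟨u, v, huv⟩ := hcpq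
        -- n with q n + r' ≡ x mod p
        have hp0 : (0 : ℤ) < p := by exact_mod_cast hp.pos
        refine ⟨((u * (x - r')) % p).toNat, fun i hdvd => hx i ?_⟩
        have h5 : (((u * (x - r')) % p).toNat : ℤ) = (u * (x - r')) % p :=
          Int.toNat_of_nonneg (Int.emod_nonneg _ hp0.ne')
        rw [h5] at hdvd
        have h6 : (p : ℤ) ∣ (u * (x - r')) - (u * (x - r')) % p := Int.dvd_self_sub_emod
        have h7 : x + b i = ((q : ℤ) * ((u * (x - r')) % p) + (r' + b i)) +
            (q * ((u * (x - r')) - (u * (x - r')) % p) + v * (x - r') * p) := by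
          have : (x - r') * (u * q + v * p) = x - r' := by rw [huv, mul_one]
          linear_combination -this
        rw [h7]
        exact dvd_add hdvd (dvd_add (Dvd.dvd.mul_left h6 _) (Dvd.intro_left _ rfl)))
  obtain ⟨I, hI, hT⟩ := hex
  refine ⟨b '' I, ⟨?_, ?_⟩, ?_⟩
  · rintro a ⟨i, _, rfl⟩
    exact hqb i
  · intro T
    have h1 := hT (T.image (fun t => ((q : ℤ), r' + t))) (by
      intro f hf
      rw [Finset.mem_image] at hf
      obtain ⟨t, _, rfl⟩ := hf
      show (1 : ℤ) ≤ q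
      exact_mod_cast hq)
    have hinj : Function.Injective (fun x : ℕ => (q * x + r'.toNat : ℕ)) := by
      intro x y hxy
      have h2 : q * x + r'.toNat = q * y + r'.toNat := hxy
      have : q * x = q * y := by omega
      exact Nat.eq_of_mul_eq_mul_left (by omega) this
    refine (h1.image hinj.injOn).mono ?_
    rintro _ ⟨x, hx, rfl⟩
    have h3 : ((r'.toNat : ℕ) : ℤ) = r' := Int.toNat_of_nonneg hr0
    refine ⟨?_, fun t ht => ?_⟩
    · push_cast
      rw [h3, hr']
      have : (q : ℤ) * x + r % q ≡ r % q [ZMOD q] := by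
        rw [Int.modEq_iff_dvd]
        exact ⟨-x, by ring⟩
      exact this.trans (Int.mod_modEq r q)
    · have h4 := hx (((q : ℤ), r' + t)) (Finset.mem_image.2 ⟨t, ht, rfl⟩)
      have h5 : ((((q * x + r'.toNat : ℕ) : ℤ)) + t) = (q : ℤ) * x + (r' + t) := by
        push_cast
        rw [h3]; ring
      rw [h5, h4]
      constructor
      · rintro ⟨i, hi, heq⟩
        simp only [Prod.mk.injEq, true_and, add_right_inj] at heq
        exact ⟨i, hi, heq.symm⟩
      · rintro ⟨i, hi, rfl⟩
        exact ⟨i, hi, rfl⟩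
  · have : {i | b i ∈ b '' I} = I := by
      ext i
      simp only [Set.mem_ofPred_eq]
      constructor
      · rintro ⟨j, hj, hji⟩
        rwa [← hb hji]
      · intro hi
        exact ⟨i, hi, rfl⟩
    rw [this]
    exact hI

end Pool.Agent.N790.BP
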