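import Mathlib
import Pool.Agent.N790.BP.Leaf

/-! Nested configurations of intervals: finitely many intervals of suitable lengths are met by an exact
pattern up to weight `ε`. -/

set_option autoImplicit false

namespace Pool.Agent.N790.BP

open Finset Filter Topology

/-- `S` meets the interval `[a, a + c]` -/
def Hit (S : Set ℤ) (a : ℤ) (c : ℕ) : Prop := ∃ x ∈ S, a ≤ x ∧ x ≤ a + c

open Classical in
/-- the indicator of a proposition -/
noncomputable def ind (P : Prop) : ℝ := if P then 1 else 0

theorem ind_pos {P : Prop} (h : P) : ind P = 1 := if_pos h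

theorem ind_neg {P : Prop} (h : ¬ P) : ind P = 0 := if_neg h

theorem ind_nonneg (P : Prop) : 0 ≤ ind P := by
  by_cases h : P
  · rw [ind_pos h]; norm_num
  · rw [ind_neg h]

theorem ind_le_one (P : Prop) : ind P ≤ 1 := by
  by_cases h : P
  · rw [ind_pos h]
  · rw [ind_neg h]; norm_num

theorem ind_mono {P Q : Prop} (h : P → Q) : ind P ≤ ind Q := by
  by_cases hP : P
  · rw [ind_pos hP, ind_pos (h hP)]
  · rw [ind_neg hP]; exact ind_nonneg Q

theorem ind_congr {P Q : Prop} (h : P ↔ Q) : ind P = ind Q := by rw [propext h]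

theorem Good.shift {q : ℕ} {r : ℤ} {S : Set ℤ} (hS : Good q r S) {c : ℤ} (hc : (q : ℤ) ∣ c) :
    Good q r {x | x + c ∈ S} := by
  refine ⟨fun a ha => ?_, fun T => ?_⟩
  · have h1 := hS.1 _ ha
    exact (Int.dvd_add_left hc).1 h1
  · have h1 := hS.2 (T.image (fun t => t + c))
    have h2 : ({n : ℕ | (n : ℤ) ≡ r [ZMOD q] ∧
        ∀ t ∈ T.image (fun t => t + c), (Nat.Prime ((n : ℤ) + t).toNat ↔ t ∈ S)} \
        Set.Iic c.natAbs).Infinite := h1.sdiff (Set.finite_Iic _)
    have h3 : ∀ n : ℕ, c.natAbs < n → (((n : ℤ) + c).toNat : ℤ) = (n : ℤ) + c := by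
      intro n hn
      apply Int.toNat_of_nonneg
      omega
    refine (h2.image (f := fun n : ℕ => ((n : ℤ) + c).toNat) ?_).mono ?_
    · rintro x ⟨_, hx⟩ y ⟨_, hy⟩ hxy
      simp only [Set.mem_Iic, not_le] at hx hy
      have h4 := h3 x hx
      have h5 := h3 y hy
      have h6 : ((x : ℤ) + c).toNat = ((y : ℤ) + c).toNat := hxy
      rw [h6] at h4
      omega
    · rintro _ ⟨n, ⟨⟨hn1, hn2⟩, hn3⟩, rfl⟩
      simp only [Set.mem_Iic, not_le] at hn3
      refine ⟨?_, fun t ht => ?_⟩
      · show (((((n : ℤ) + c).toNat : ℕ)) : ℤ) ≡ r [ZMOD q]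
        rw [h3 n hn3]
        have : (n : ℤ) + c ≡ n [ZMOD q] := by
          rw [Int.modEq_iff_dvd]
          have h7 : (n : ℤ) - (n + c) = -c := by ring
          rw [h7]
          exact (dvd_neg).2 hc
        exact this.trans hn1
      · show Nat.Prime ((((((n : ℤ) + c).toNat : ℕ)) : ℤ) + t).toNat ↔ _
        rw [h3 n hn3]
        have := hn2 (t + c) (Finset.mem_image.2 ⟨t, ht, rfl⟩)
        have h8 : (n : ℤ) + c + t = n + (t + c) := by ring
        rw [h8, this]
        rfl

theorem hit_shift (S : Set ℤ) (a c : ℤ) (k : ℕ) : Hit {x | x + c ∈ S} a k ↔ Hit S (a + c) k := by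
  constructor
  · rintro ⟨x, hx, h1, h2⟩
    exact ⟨x + c, hx, by omega, by omega⟩
  · rintro ⟨x, hx, h1, h2⟩
    exact ⟨x - c, by simpa using hx, by omega, by omega⟩

/-- greedy choice -/
theorem greedy (F : ℕ → Finset ℤ) (hF : ∀ e, e < (F e).card) :
    ∃ b : ℕ → ℤ, Function.Injective b ∧ ∀ e, b e ∈ F e := by
  classical
  refine (Finset.all_card_le_biUnion_card_iff_exists_injective F).1 fun s => ?_
  rcases s.eq_empty_or_nonempty with rfl | hs
  · simp
  · have h1 : s ⊆ range (s.max' hs + 1) := by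
      intro x hx
      rw [Finset.mem_range, Nat.lt_succ_iff]
      exact s.le_max' x hx
    have h2 := Finset.card_le_card h1
    rw [Finset.card_range] at h2
    have h3 : F (s.max' hs) ⊆ s.biUnion F := Finset.subset_biUnion_of_mem F (s.max'_mem hs)
    have h4 := Finset.card_le_card h3
    have h5 := hF (s.max' hs)
    omega

/-- the moduli -/
def Mo (off : ℕ → ℕ) (q i : ℕ) : ℕ := q * (off (i + 1) + 2).factorial

/-- the lengths of the intervals -/
def len (off : ℕ → ℕ) (q i : ℕ) : ℕ := Mo off q i * off (i + 1)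

theorem exists_blk (off : ℕ → ℕ) (hoff : StrictMono off) (e : ℕ) : ∃ i, e < off (i + 1) :=
  ⟨e, lt_of_lt_of_le (Nat.lt_succ_self e) (hoff.id_le (e + 1))⟩

open Classical in
/-- the block of an index -/
noncomputable def blk (off : ℕ → ℕ) (hoff : StrictMono off) (e : ℕ) : ℕ := Nat.find (exists_blk off hoff e)

theorem blk_lt (off : ℕ → ℕ) (hoff : StrictMono off) (e : ℕ) : e < off (blk off hoff e + 1) :=
  Nat.find_spec (exists_blk off hoff e)

theorem blk_eq (off : ℕ → ℕ) (hoff : StrictMono off) {e i : ℕ} (h1 : off i ≤ e) (h2 : e < off (i + 1)) :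
    blk off hoff e = i := by
  refine le_antisymm (Nat.find_min' _ h2) ?_
  by_contra h
  push Not at h
  have h3 := blk_lt off hoff e
  have h4 : off (blk off hoff e + 1) ≤ off i := hoff.monotone h
  omega

theorem leaves : ∃ off : ℕ → ℕ, StrictMono off ∧ off 0 = 0 ∧ ∀ (q : ℕ) (r : ℤ), 1 ≤ q →
    IsCoprime r (q : ℤ) → ∀ (w : ℕ → ℝ) (J : ℕ), (∀ t ∈ range J, 0 ≤ w t) → ∑ t ∈ range J, w t = 1 →
    ∀ pos : ℕ → ℤ, ∃ S : Set ℤ, Good q r S ∧
      1 / 500 ≤ ∑ t ∈ range J, w t * ind (Hit S (pos t) (len off q t)) := by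
  classical
  obtain ⟨off, hoff, h0, hbl⟩ := blocks
  refine ⟨off, hoff, h0, fun q r hq hqr w J hw hw1 pos => ?_⟩
  have hM0 : ∀ i, 0 < Mo off q i := fun i => Nat.mul_pos hq (Nat.factorial_pos _)
  set F : ℕ → Finset ℤ := fun e => (range (off (blk off hoff e + 1))).image
    (fun k : ℕ => (Mo off q (blk off hoff e) : ℤ) * (pos (blk off hoff e) / Mo off q (blk off hoff e) + 1 + k))
    with hF
  have hFc : ∀ e, e < (F e).card := by
    intro e
    rw [hF]
    simp only
    rw [Finset.card_image_of_injective, Finset.card_range]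
    · exact blk_lt off hoff e
    · intro x y hxy
      have h1 : (0 : ℤ) < Mo off q (blk off hoff e) := by exact_mod_cast hM0 _
      have h2 := mul_left_cancel₀ h1.ne' hxy
      have h3 : (x : ℤ) = y := by linarith
      exact_mod_cast h3
  obtain ⟨b, hb, hbF⟩ := greedy F hFc
  have hbM : ∀ e, ((Mo off q (blk off hoff e) : ℕ) : ℤ) ∣ b e := by
    intro e
    have := hbF e
    rw [hF] at this
    simp only [Finset.mem_image] at this
    obtain ⟨k, _, hk⟩ := this
    rw [← hk]
    exact Dvd.intro _ rfl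
  have hbI : ∀ e, pos (blk off hoff e) ≤ b e ∧ b e ≤ pos (blk off hoff e) + len off q (blk off hoff e) := by
    intro e
    have := hbF e
    rw [hF] at this
    simp only [Finset.mem_image, Finset.mem_range] at this
    obtain ⟨k, hk1, hk⟩ := this
    rw [← hk]
    set M : ℤ := (Mo off q (blk off hoff e) : ℤ) with hM
    have hMp : 0 < M := by rw [hM]; exact_mod_cast hM0 _
    set P := pos (blk off hoff e)
    have h1 : M * (P / M) + P % M = P := Int.mul_ediv_add_emod P M
    have h2 := Int.emod_nonneg P hMp.ne'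
    have h3 := Int.emod_lt_of_pos P hMp
    constructor
    · have : (0 : ℤ) ≤ M * k := by positivity
      nlinarith
    · have h4 : (k : ℤ) + 1 ≤ off (blk off hoff e + 1) := by exact_mod_cast hk1
      have h5 : ((len off q (blk off hoff e) : ℕ) : ℤ) = M * off (blk off hoff e + 1) := by
        rw [hM]; unfold len; push_cast; ring
      rw [h5]
      nlinarith
  have hw' : ∀ t, 0 ≤ (fun t => if t < J then w t else 0) t := by
    intro t
    show 0 ≤ if t < J then w t else 0
    split_ifs with h
    · exact hw t (Finset.mem_range.2 h)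
    · exact le_rfl
  have hw1' : ∑ t ∈ range J, (fun t => if t < J then w t else 0) t = 1 := by
    rw [← hw1]
    refine Finset.sum_congr rfl fun t ht => ?_
    rw [Finset.mem_range] at ht
    simp only [if_pos ht]
  obtain ⟨S, hS, hSw⟩ := hbl q r hq hqr (fun t => if t < J then w t else 0) J hw' hw1' b hb (by
    intro e
    refine dvd_trans ?_ (hbM e)
    unfold Mo
    push_cast
    exact Dvd.intro _ rfl) (by
    intro p hp hpq
    -- the residues which must be avoided
    have : Fact p.Prime := ⟨hp⟩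
    set B : Finset (ZMod p) := insert 0 ((range (p - 2)).image (fun e => -((b e : ℤ) : ZMod p))) with hB
    have hBc : B.card < Fintype.card (ZMod p) := by
      rw [ZMod.card]
      have h1 := Finset.card_insert_le (0 : ZMod p) ((range (p - 2)).image (fun e => -((b e : ℤ) : ZMod p)))
      have h2 := Finset.card_image_le (s := range (p - 2)) (f := fun e => -((b e : ℤ) : ZMod p))
      rw [Finset.card_range] at h2
      have h3 := hp.two_le
      have h4 : B.card ≤ p - 2 + 1 := by rw [hB]; omega
      omega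
    obtain ⟨x, hx⟩ : ∃ x : ZMod p, x ∉ B := by
      by_contra hcon
      push Not at hcon
      have : B = Finset.univ := Finset.eq_univ_iff_forall.2 hcon
      rw [this, Finset.card_univ] at hBc
      exact lt_irrefl _ hBc
    obtain ⟨z, hz⟩ := ZMod.intCast_surjective x
    refine ⟨z, fun e hdvd => hx ?_⟩
    have h5 : ((z + b e : ℤ) : ZMod p) = 0 := (ZMod.intCast_zmod_eq_zero_iff_dvd _ _).2 hdvd
    push_cast at h5
    rw [hz] at h5
    rw [hB, Finset.mem_insert]
    by_cases he : e < p - 2
    · right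
      rw [Finset.mem_image]
      exact ⟨e, Finset.mem_range.2 he, by linear_combination -h5⟩
    · left
      have h6 : (p : ℤ) ∣ b e := by
        refine dvd_trans ?_ (hbM e)
        have h7 : p ∣ Mo off q (blk off hoff e) := by
          unfold Mo
          refine Dvd.dvd.mul_left ?_ q
          rw [hp.dvd_factorial]
          have := blk_lt off hoff e
          omega
        exact_mod_cast h7
      have h7 : ((b e : ℤ) : ZMod p) = 0 := (ZMod.intCast_zmod_eq_zero_iff_dvd _ _).2 h6
      rw [h7, add_zero] at h5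
      exact h5)
  refine ⟨S, hS, hSw.trans ?_⟩
  unfold wt
  refine Finset.sum_le_sum fun t ht => ?_
  rw [Finset.mem_range] at ht
  by_cases h : ∃ i ∈ Ico (off t) (off (t + 1)), i ∈ {i | b i ∈ S}
  · rw [if_pos h]
    obtain ⟨i, hi, hiS⟩ := h
    rw [Finset.mem_Ico] at hi
    have h1 := blk_eq off hoff hi.1 hi.2
    have h2 := hbI i
    rw [h1] at h2
    rw [ind_pos (show Hit S (pos t) (len off q t) from ⟨b i, hiS, h2.1, h2.2⟩)]
    simp only [if_pos ht]
    rw [mul_one]
  · rw [if_neg h]
    exact mul_nonneg (hw t (Finset.mem_range.2 ht)) (ind_nonneg _)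

end Pool.Agent.N790.BP
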