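import Mathlib
import Pool.Agent.N790.BP.Nest

/-! Nested configurations: for every weight on a sequence of intervals of suitable lengths some exact
pattern meets intervals of total weight more than `ρ`. -/

set_option autoImplicit false

namespace Pool.Agent.N790.BP

open Finset Filter Topology

/-- sums over consecutive blocks -/
theorem sum_blocks (st : ℕ → ℕ) (hst : Monotone st) (f : ℕ → ℝ) (s : ℕ) :
    ∑ t ∈ Ico (st 0) (st s), f t = ∑ j ∈ range s, ∑ t ∈ Ico (st j) (st (j + 1)), f t := by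
  induction s with
  | zero => simp
  | succ s ih =>
    rw [Finset.sum_range_succ, ← ih, Finset.sum_Ico_consecutive f (hst (Nat.zero_le s)) (hst (Nat.le_succ s))]

/-- a finite configuration of intervals of the prescribed lengths, with indices starting at `i0`,
which every exact pattern meets with weight at most `β` -/
def Conf (ln : ℕ → ℕ) (q : ℕ) (r : ℤ) (β : ℝ) (i0 : ℕ) (L : ℕ) (pos : ℕ → ℤ) (w : ℕ → ℝ) (D : ℕ) : Prop :=
  1 ≤ L ∧ (∀ t, 0 ≤ w t) ∧ ∑ t ∈ Ico i0 (i0 + L), w t = 1 ∧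
    (∀ t ∈ Ico i0 (i0 + L), 0 ≤ pos t ∧ pos t + ln t ≤ D) ∧
    ∀ S, Good q r S → ∑ t ∈ Ico i0 (i0 + L), w t * ind (Hit S (pos t) (ln t)) ≤ β

/-- the negation of the theorem -/
def Neg (q : ℕ) (r : ℤ) (ρ : ℝ) : Prop := ∀ C : ℕ → ℕ, ∃ (v : ℕ → ℤ) (p : ℕ → ℝ) (s : ℕ),
  (∀ j, (q : ℤ) ∣ v j) ∧ (∀ j, 0 ≤ p j) ∧ ∑ j ∈ range s, p j = 1 ∧
    ∀ S, Good q r S → ∑ j ∈ range s, p j * ind (Hit S (v j) (C j)) ≤ ρ

theorem conf_succ (ln : ℕ → ℕ) (q : ℕ) (r : ℤ) (ρ β : ℝ) (hβ : 0 ≤ β) (hneg : Neg q r ρ)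
    (h : ∀ i0, ∃ L pos w D, Conf ln q r β i0 L pos w D) :
    ∀ i0, ∃ L pos w D, Conf ln q r (ρ * β) i0 L pos w D := by
  classical
  intro i0
  choose L pos w D hC using h
  -- the first indices of the children
  set st : ℕ → ℕ := fun j => Nat.rec i0 (fun _ x => x + L x) j with hst
  have hst0 : st 0 = i0 := rfl
  have hsts : ∀ j, st (j + 1) = st j + L (st j) := fun j => rfl
  have hmono : StrictMono st := strictMono_nat_of_lt_succ fun j => by
    rw [hsts]
    have := (hC (st j)).1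
    omega
  obtain ⟨v, p, s, hqv, hp, hp1, hpS⟩ := hneg (fun j => D (st j))
  -- all positions are made nonnegative
  set m0 : ℤ := -∑ j ∈ range s, |v j| with hm0
  have hqm0 : (q : ℤ) ∣ m0 := by
    rw [hm0]
    exact (dvd_neg).2 (Finset.dvd_sum fun j _ => (dvd_abs _ _).2 (hqv j))
  have hm0v : ∀ j < s, m0 ≤ v j := by
    intro j hj
    have h1 : |v j| ≤ ∑ j ∈ range s, |v j| :=
      Finset.single_le_sum (f := fun j => |v j|) (fun _ _ => abs_nonneg _) (Finset.mem_range.2 hj)
    have h2 := neg_abs_le (v j)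
    rw [hm0]
    omega
  have hex : ∀ t, ∃ j, t < st (j + 1) := fun t => ⟨t, lt_of_lt_of_le (Nat.lt_succ_self t) (hmono.id_le (t + 1))⟩
  set ch : ℕ → ℕ := fun t => Nat.find (hex t) with hch
  have hch_eq : ∀ t j, t ∈ Ico (st j) (st (j + 1)) → ch t = j := by
    intro t j ht
    rw [Finset.mem_Ico] at ht
    refine le_antisymm (Nat.find_min' _ ht.2) ?_
    by_contra hlt
    push Not at hlt
    have h3 : t < st (ch t + 1) := Nat.find_spec (hex t)
    have h4 : st (ch t + 1) ≤ st j := hmono.monotone hlt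
    omega
  have hchild : ∀ t ∈ Ico i0 (st s), ∃ j < s, t ∈ Ico (st j) (st (j + 1)) := by
    intro t ht
    rw [Finset.mem_Ico] at ht
    have h3 : t < st (ch t + 1) := Nat.find_spec (hex t)
    have hle : st (ch t) ≤ t := by
      rcases Nat.eq_zero_or_pos (ch t) with h0 | h0
      · rw [h0, hst0]; exact ht.1
      · have := Nat.find_min (hex t) (m := ch t - 1) (Nat.sub_lt h0 one_pos)
        have e1 : ch t - 1 + 1 = ch t := by omega
        rw [not_lt, e1] at this
        exact this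
    refine ⟨ch t, ?_, Finset.mem_Ico.2 ⟨hle, h3⟩⟩
    by_contra hlt
    push Not at hlt
    have := hmono.monotone hlt
    omega
  set w' : ℕ → ℝ := fun t => p (ch t) * w (st (ch t)) t with hw'
  set pos' : ℕ → ℤ := fun t => v (ch t) - m0 + pos (st (ch t)) t with hpos'
  set D' : ℕ := ∑ j ∈ range s, ((v j - m0).toNat + D (st j)) with hD'
  have hi0s : i0 ≤ st s := by
    have := hmono.monotone (Nat.zero_le s)
    rwa [hst0] at this
  have hLs : i0 + (st s - i0) = st s := by omega
  refine ⟨st s - i0, pos', w', D', ?_, ?_, ?_, ?_, ?_⟩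
  · have hs : s ≠ 0 := by
      rintro rfl
      rw [Finset.sum_range_zero] at hp1
      norm_num at hp1
    have := hmono (Nat.pos_of_ne_zero hs)
    rw [hst0] at this
    omega
  · intro t
    exact mul_nonneg (hp _) ((hC _).2.1 t)
  · rw [hLs, ← hst0, sum_blocks st hmono.monotone, ← hp1]
    refine Finset.sum_congr rfl fun j _ => ?_
    have h1 : ∑ t ∈ Ico (st j) (st (j + 1)), w' t = ∑ t ∈ Ico (st j) (st j + L (st j)), p j * w (st j) t := by
      refine Finset.sum_congr (by rw [hsts]) fun t ht => ?_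
      rw [hw']
      simp only
      rw [hch_eq t j (by rw [hsts]; exact ht)]
    rw [h1, ← Finset.mul_sum, (hC (st j)).2.2.1, mul_one]
  · intro t ht
    rw [hLs] at ht
    obtain ⟨j, hj, htj⟩ := hchild t ht
    have h1 := (hC (st j)).2.2.2.1 t (by rw [← hsts]; exact htj)
    have h2 := hm0v j hj
    have h3 : (v j - m0).toNat + D (st j) ≤ D' :=
      Finset.single_le_sum (f := fun j => (v j - m0).toNat + D (st j)) (fun _ _ => Nat.zero_le _)
        (Finset.mem_range.2 hj)
    have h4 : (((v j - m0).toNat : ℕ) : ℤ) = v j - m0 := Int.toNat_of_nonneg (by omega)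
    rw [hpos']
    simp only
    rw [hch_eq t j htj]
    constructor
    · omega
    · have h5 : (((v j - m0).toNat + D (st j) : ℕ) : ℤ) ≤ (D' : ℤ) := by exact_mod_cast h3
      push_cast at h5
      omega
  · intro S hS
    rw [hLs, ← hst0, sum_blocks st hmono.monotone]
    have hS1 : Good q r {x | x + (-m0) ∈ S} := hS.shift ((dvd_neg).2 hqm0)
    have h1 : ∀ j ∈ range s, ∑ t ∈ Ico (st j) (st (j + 1)), w' t * ind (Hit S (pos' t) (ln t)) ≤
        β * (p j * ind (Hit {x | x + (-m0) ∈ S} (v j) (D (st j)))) := by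
      intro j hj
      rw [Finset.mem_range] at hj
      have e1 : ∑ t ∈ Ico (st j) (st (j + 1)), w' t * ind (Hit S (pos' t) (ln t)) =
          p j * ∑ t ∈ Ico (st j) (st j + L (st j)), w (st j) t *
            ind (Hit {x | x + (v j - m0) ∈ S} (pos (st j) t) (ln t)) := by
        rw [Finset.mul_sum]
        refine Finset.sum_congr (by rw [hsts]) fun t ht => ?_
        rw [hw', hpos']
        simp only
        rw [hch_eq t j (by rw [hsts]; exact ht), ind_congr (hit_shift S (pos (st j) t) (v j - m0) (ln t))]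
        have : v j - m0 + pos (st j) t = pos (st j) t + (v j - m0) := by ring
        rw [this]
        ring
      rw [e1]
      by_cases hH : Hit {x | x + (-m0) ∈ S} (v j) (D (st j))
      · rw [ind_pos hH, mul_one, mul_comm β]
        refine mul_le_mul_of_nonneg_left ?_ (hp j)
        exact (hC (st j)).2.2.2.2 _ (hS.shift (dvd_sub (hqv j) hqm0))
      · rw [ind_neg hH, mul_zero, mul_zero]
        have e2 : ∑ t ∈ Ico (st j) (st j + L (st j)), w (st j) t *
            ind (Hit {x | x + (v j - m0) ∈ S} (pos (st j) t) (ln t)) = 0 := by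
          refine Finset.sum_eq_zero fun t ht => ?_
          rw [ind_neg, mul_zero]
          rintro ⟨x, hx, hx1, hx2⟩
          refine hH ⟨x + v j, ?_, ?_, ?_⟩
          · show x + v j + (-m0) ∈ S
            have : x + v j + (-m0) = x + (v j - m0) := by ring
            rw [this]
            exact hx
          · have := ((hC (st j)).2.2.2.1 t ht).1
            omega
          · have := ((hC (st j)).2.2.2.1 t ht).2
            omega
        rw [e2, mul_zero]
    calc ∑ j ∈ range s, ∑ t ∈ Ico (st j) (st (j + 1)), w' t * ind (Hit S (pos' t) (ln t))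
        ≤ ∑ j ∈ range s, β * (p j * ind (Hit {x | x + (-m0) ∈ S} (v j) (D (st j)))) :=
          Finset.sum_le_sum h1
      _ = β * ∑ j ∈ range s, p j * ind (Hit {x | x + (-m0) ∈ S} (v j) (D (st j))) := by
          rw [Finset.mul_sum]
      _ ≤ β * ρ := mul_le_mul_of_nonneg_left (hpS _ hS1) hβ
      _ = ρ * β := mul_comm _ _

theorem conf_all (ln : ℕ → ℕ) (q : ℕ) (r : ℤ) (ρ : ℝ) (hρ : 0 ≤ ρ) (hneg : Neg q r ρ) (d : ℕ) :
    ∀ i0, ∃ L pos w D, Conf ln q r (ρ ^ d) i0 L pos w D := by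
  induction d with
  | zero =>
    intro i0
    refine ⟨1, fun _ => 0, fun _ => 1, ln i0, le_rfl, fun _ => zero_le_one, by simp, ?_, ?_⟩
    · intro t ht
      rw [Finset.mem_Ico] at ht
      have : t = i0 := by omega
      subst this
      simp
    · intro S _
      simp only [pow_zero, Nat.Ico_succ_singleton, Finset.sum_singleton, one_mul]
      exact ind_le_one _
  | succ d ih =>
    intro i0
    rw [pow_succ, mul_comm]
    exact conf_succ ln q r ρ (ρ ^ d) (pow_nonneg hρ d) hneg ih i0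

/-- **Claim 1** -/
theorem claim1 (q : ℕ) (r : ℤ) (hq : 1 ≤ q) (hqr : IsCoprime r (q : ℤ)) (ρ : ℝ) (hρ0 : 0 ≤ ρ) (hρ : ρ < 1) :
    ∃ C : ℕ → ℕ, ∀ (v : ℕ → ℤ) (p : ℕ → ℝ) (s : ℕ), (∀ j, (q : ℤ) ∣ v j) → (∀ j, 0 ≤ p j) →
      ∑ j ∈ range s, p j = 1 → ∃ S, Good q r S ∧ ρ < ∑ j ∈ range s, p j * ind (Hit S (v j) (C j)) := by
  obtain ⟨off, hoff, h0, hlv⟩ := leaves
  by_contra hcon
  push Not at hcon
  have hneg : Neg q r ρ := hcon
  obtain ⟨d, hd⟩ := exists_pow_lt_of_lt_one (show (0 : ℝ) < 1 / 500 by norm_num) hρ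
  obtain ⟨L, pos, w, D, hL, hw, hw1, _, hS⟩ := conf_all (len off q) q r ρ hρ0 hneg d 0
  rw [zero_add, Nat.Ico_zero_eq_range] at hw1
  obtain ⟨S, hS1, hS2⟩ := hlv q r hq hqr w L (fun t _ => hw t) hw1 pos
  have := hS S hS1
  rw [zero_add, Nat.Ico_zero_eq_range] at this
  linarith

end Pool.Agent.N790.BP
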