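import Mathlib
import Pool.Agent.N790.BP.Conf
import Pool.Agent.N790.BP.MM

/-! One exact pattern for an infinite sequence of weights. -/

set_option autoImplicit false

namespace Pool.Agent.N790.BP

open Finset Filter Topology
open Pool.Agent.H361R2.Inf

/-- the limit measure -/
theorem limMeas (M : ℕ → Set ℕ → ℝ) (h0 : ∀ N A, 0 ≤ M N A)
    (hadd : ∀ N A B, Disjoint A B → M N (A ∪ B) = M N A + M N B) (hle : ∀ N A, M N A ≤ 1)
    (hfin : ∀ A : Set ℕ, A.Finite → ∀ᶠ N in atTop, M N A = 0) :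
    ∃ m : Set ℕ → ℝ, FMeas m ∧ m Set.univ ≤ 1 ∧
      ∀ (A : Set ℕ) (c : ℝ), (∀ᶠ N in atTop, c ≤ M N A) → c ≤ m A := by
  set U : Ultrafilter ℕ := Ultrafilter.of atTop with hU
  have hUle : (U : Filter ℕ) ≤ atTop := Ultrafilter.of_le _
  have hlim : ∀ S : Set ℕ, ∃ l : ℝ, Tendsto (fun J => M J S) U (𝓝 l) := by
    intro S
    have hc1 : IsCompact (Set.Icc (0 : ℝ) 1) := isCompact_Icc
    have h1 : ((U.map (fun J => M J S) : Ultrafilter ℝ) : Filter ℝ) ≤ 𝓟 (Set.Icc (0 : ℝ) 1) := by
      rw [le_principal_iff, Ultrafilter.mem_coe, Ultrafilter.mem_map]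
      apply Filter.univ_mem'
      intro J
      exact ⟨h0 J S, hle J S⟩
    obtain ⟨l, _, hl⟩ := hc1.ultrafilter_le_nhds _ h1
    exact ⟨l, hl⟩
  choose m hm using hlim
  refine ⟨m, ⟨fun S => ?_, fun S T hST => ?_, fun S hS => ?_⟩, le_of_tendsto' (hm _) fun N => hle N _,
    fun S c hc => ?_⟩
  · exact ge_of_tendsto' (hm S) fun J => h0 J S
  · have h1 := (hm S).add (hm T)
    have h2 := hm (S ∪ T)
    have h3 : (fun J => M J (S ∪ T)) = fun J => M J S + M J T := by
      ext J
      exact hadd J S T hST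
    rw [h3] at h2
    exact tendsto_nhds_unique h2 h1
  · refine tendsto_nhds_unique (hm S) ?_
    refine Tendsto.congr' ?_ tendsto_const_nhds
    have := hUle (hfin S hS)
    filter_upwards [this] with N hN
    exact hN.symm
  · exact ge_of_tendsto (hm S) (hUle hc)

/-- the finite duality -/
theorem dual (q : ℕ) (r : ℤ) (ρ : ℝ) (C : ℕ → ℕ)
    (hC : ∀ (v : ℕ → ℤ) (p : ℕ → ℝ) (s : ℕ), (∀ j, (q : ℤ) ∣ v j) → (∀ j, 0 ≤ p j) →
      ∑ j ∈ range s, p j = 1 → ∃ S, Good q r S ∧ ρ < ∑ j ∈ range s, p j * ind (Hit S (v j) (C j)))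
    (v : ℕ → ℤ) (hv : ∀ j, (q : ℤ) ∣ v j) (η : ℝ) (hη : 0 < η) (N : ℕ) :
    ∃ (l : Finset (Fin (N + 1)) → ℝ) (G : Finset (Fin (N + 1)) → Set ℤ), (∀ h, 0 ≤ l h) ∧ ∑ h, l h = 1 ∧
      (∀ h, Good q r (G h)) ∧ ∀ j : Fin (N + 1), ρ - η ≤ ∑ h, l h * ind (Hit (G h) (v j) (C j)) := by
  classical
  -- realised patterns
  set R : Finset (Fin (N + 1)) → Prop := fun h => ∃ S, Good q r S ∧ ∀ j, (j ∈ h ↔ Hit S (v j) (C j)) with hR
  obtain ⟨S0, hS0, _⟩ := hC v (fun j => if j = 0 then 1 else 0) 1 hv (fun j => by split_ifs <;> norm_num)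
    (by simp)
  set G : Finset (Fin (N + 1)) → Set ℤ := fun h => if hh : R h then hh.choose else S0 with hG
  have hGg : ∀ h, Good q r (G h) := by
    intro h
    rw [hG]
    by_cases hh : R h
    · simp only [dif_pos hh]
      exact hh.choose_spec.1
    · simp only [dif_neg hh]
      exact hS0
  have hGR : ∀ h, R h → ∀ j, (j ∈ h ↔ Hit (G h) (v j) (C j)) := by
    intro h hh
    rw [hG]
    simp only [dif_pos hh]
    exact hh.choose_spec.2
  set K : Set (Finset (Fin (N + 1)) → ℝ) := {l | (∀ h, 0 ≤ l h) ∧ ∑ h, l h = 1} with hK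
  have hKc : Convex ℝ K := by
    rintro x ⟨hx1, hx2⟩ y ⟨hy1, hy2⟩ a b ha hb hab
    refine ⟨fun h => ?_, ?_⟩
    · simp only [Pi.add_apply, Pi.smul_apply, smul_eq_mul]
      exact add_nonneg (mul_nonneg ha (hx1 h)) (mul_nonneg hb (hy1 h))
    · simp only [Pi.add_apply, Pi.smul_apply, smul_eq_mul]
      rw [Finset.sum_add_distrib, ← Finset.mul_sum, ← Finset.mul_sum, hx2, hy2, mul_one, mul_one, hab]
  obtain ⟨l, ⟨hl1, hl2⟩, hl3⟩ := minimax K hKc
    (fun (j : Fin (N + 1)) l => ∑ h, l h * ind (Hit (G h) (v j) (C j))) (by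
      intro j
      refine ⟨hKc, fun x _ y _ a b ha hb hab => le_of_eq ?_⟩
      simp only [Pi.add_apply, Pi.smul_apply, smul_eq_mul]
      rw [Finset.mul_sum, Finset.mul_sum, ← Finset.sum_add_distrib]
      refine Finset.sum_congr rfl fun h _ => ?_
      ring) ρ (by
      intro p hp hp1
      obtain ⟨S, hS1, hS2⟩ := hC v (fun j => if hj : j < N + 1 then p ⟨j, hj⟩ else 0) (N + 1) hv
        (fun j => by
          split_ifs with h
          · exact hp _
          · exact le_rfl)
        (by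
          rw [← hp1, Finset.sum_range]
          refine Finset.sum_congr rfl fun j _ => ?_
          rw [dif_pos j.2])
      rw [Finset.sum_range] at hS2
      set h : Finset (Fin (N + 1)) := Finset.univ.filter (fun j => Hit S (v j) (C j)) with hh
      have hRh : R h := ⟨S, hS1, fun j => by simp [hh]⟩
      refine ⟨Pi.single h 1, ⟨fun h' => ?_, by simp⟩, ?_⟩
      · by_cases e : h' = h
        · subst e; simp
        · rw [Pi.single_eq_of_ne e]
      · refine hS2.le.trans (le_of_eq ?_)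
        refine Finset.sum_congr rfl fun j _ => ?_
        rw [dif_pos j.2]
        have e1 : ∑ h', (Pi.single h (1 : ℝ) : Finset (Fin (N + 1)) → ℝ) h' *
            ind (Hit (G h') (v j) (C j)) = ind (Hit (G h) (v j) (C j)) := by
          rw [Finset.sum_eq_single h]
          · simp
          · intro h' _ hne
            rw [Pi.single_eq_of_ne hne, zero_mul]
          · intro hne
            exact absurd (Finset.mem_univ _) hne
        rw [e1]
        congr 1
        apply ind_congr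
        rw [← hGR h hRh j, hh, Finset.mem_filter]
        simp) η hη
  exact ⟨l, G, hl1, hl2, hGg, hl3⟩

/-- **Claim 2** -/
theorem claim2 (q : ℕ) (r : ℤ) (hq : 1 ≤ q) (hqr : IsCoprime r (q : ℤ)) (ε : ℝ) (hε : 0 < ε) :
    ∃ C : ℕ → ℕ, ∀ (v : ℕ → ℤ), (∀ j, (q : ℤ) ∣ v j) → ∀ (n : ℕ → ℕ) (p : ℕ → ℕ → ℝ),
      (∀ s j, 0 ≤ p s j) → (∀ s, ∑ j ∈ range (n s), p s j = 1) →
      ∃ S, Good q r S ∧ ∃ᶠ s in atTop, 1 - ε ≤ ∑ j ∈ range (n s), p s j * ind (Hit S (v j) (C j)) := by
  classical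
  -- reduction to ε < 1
  wlog hε1 : ε < 1 generalizing ε
  · obtain ⟨C, hC⟩ := this (1 / 2) (by norm_num) (by norm_num)
    refine ⟨C, fun v hv n p hp hp1 => ?_⟩
    obtain ⟨S, hS1, hS2⟩ := hC v hv n p hp hp1
    refine ⟨S, hS1, hS2.mono fun s hs => ?_⟩
    push Not at hε1
    linarith
  obtain ⟨C, hC⟩ := claim1 q r hq hqr (1 - ε / 4) (by linarith) (by linarith)
  refine ⟨C, fun v hv n p hp hp1 => ?_⟩
  choose l G hl0 hl1 hG hlh using dual q r (1 - ε / 4) C hC v hv (ε / 4) (by linarith)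
  -- coding
  set code : (Σ N : ℕ, Finset (Fin (N + 1))) → ℕ := Encodable.encode with hcode
  have hcinj : Function.Injective code := Encodable.encode_injective
  set D : ℕ → (Σ N : ℕ, Finset (Fin (N + 1))) := fun x =>
    (Encodable.decode (α := Σ N : ℕ, Finset (Fin (N + 1))) x).getD ⟨0, ∅⟩ with hD
  have hDc : ∀ a, D (code a) = a := by
    intro a
    rw [hD, hcode]
    simp
  set S : ℕ → Set ℤ := fun x => G (D x).1 (D x).2 with hS
  have hSg : ∀ x, Good q r (S x) := fun x => hG _ _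
  set M : ℕ → Set ℕ → ℝ := fun N A => ∑ h : Finset (Fin (N + 1)), l N h * ind (code ⟨N, h⟩ ∈ A) with hM
  have hMS : ∀ N (P : Set ℤ → Prop), M N {x | P (S x)} = ∑ h, l N h * ind (P (G N h)) := by
    intro N P
    rw [hM]
    refine Finset.sum_congr rfl fun h _ => ?_
    congr 1
    apply ind_congr
    show P (G (D (code ⟨N, h⟩)).1 (D (code ⟨N, h⟩)).2) ↔ _
    rw [hDc]
  obtain ⟨m, hm, hm1, hmc⟩ := limMeas M
    (fun N A => Finset.sum_nonneg fun h _ => mul_nonneg (hl0 N h) (ind_nonneg _))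
    (fun N A B hAB => by
      rw [hM]
      simp only
      rw [← Finset.sum_add_distrib]
      refine Finset.sum_congr rfl fun h _ => ?_
      rw [← mul_add]
      congr 1
      by_cases h1 : code ⟨N, h⟩ ∈ A
      · have h2 : code ⟨N, h⟩ ∉ B := fun h2 => Set.disjoint_left.1 hAB h1 h2
        rw [ind_pos h1, ind_neg h2, ind_pos (show code ⟨N, h⟩ ∈ A ∪ B from Or.inl h1), add_zero]
      · by_cases h2 : code ⟨N, h⟩ ∈ B
        · rw [ind_neg h1, ind_pos h2, ind_pos (show code ⟨N, h⟩ ∈ A ∪ B from Or.inr h2), zero_add]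
        · rw [ind_neg h1, ind_neg h2, ind_neg (show ¬ code ⟨N, h⟩ ∈ A ∪ B from fun h => h.elim h1 h2), zero_add])
    (fun N A => by
      rw [← hl1 N]
      refine Finset.sum_le_sum fun h _ => ?_
      have := mul_le_mul_of_nonneg_left (ind_le_one (code ⟨N, h⟩ ∈ A)) (hl0 N h)
      linarith)
    (fun A hA => by
      -- codes of a finite set have bounded first component
      obtain ⟨N0, hN0⟩ : ∃ N0, ∀ x ∈ A, (D x).1 < N0 := by
        obtain ⟨N0, h⟩ := (hA.image (fun x => (D x).1)).bddAbove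
        exact ⟨N0 + 1, fun x hx => Nat.lt_succ_of_le (h ⟨x, hx, rfl⟩)⟩
      filter_upwards [eventually_ge_atTop N0] with N hN
      refine Finset.sum_eq_zero fun h _ => ?_
      rw [ind_neg, mul_zero]
      intro hmem
      have := hN0 _ hmem
      rw [hDc] at this
      simp only at this
      omega)
  have hHit : ∀ j, 1 - ε / 2 ≤ m {x | Hit (S x) (v j) (C j)} := by
    intro j
    apply hmc
    filter_upwards [eventually_ge_atTop j] with N hN
    rw [hMS N (fun A => Hit A (v j) (C j))]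
    have := hlh N ⟨j, by omega⟩
    simp only at this
    linarith
  -- the enumeration of the integers
  set z : ℕ → ℤ := fun i => Denumerable.ofNat ℤ i with hz
  have hze : ∀ x : ℤ, z (Encodable.encode x) = x := fun x => Denumerable.ofNat_encode x
  set E : ℕ → Set ℕ := fun i => {x | z i ∈ S x} with hE
  set A : Set ℕ → Set ℤ := fun I => {x | Encodable.encode x ∈ I} with hA
  have hAE : ∀ x, A {i | x ∈ E i} = S x := by
    intro x
    ext y
    show z (Encodable.encode y) ∈ S x ↔ _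
    rw [hze]
  set Q : ℕ → Set ℤ → ℝ := fun s T => ∑ j ∈ range (n s), p s j * ind (Hit T (v j) (C j)) with hQ
  -- the coordinates which matter
  have hbd : ∀ s, ∃ ℓ : ℕ, ∀ j < n s, ∀ x : ℤ, v j ≤ x → x ≤ v j + C j → Encodable.encode x < ℓ := by
    intro s
    set B : Finset ℕ := (range (n s)).biUnion (fun j => (Finset.Icc (v j) (v j + C j)).image Encodable.encode)
      with hB
    refine ⟨B.sup id + 1, fun j hj x h1 h2 => ?_⟩
    have hmem : Encodable.encode x ∈ B := by
      rw [hB, Finset.mem_biUnion]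
      exact ⟨j, Finset.mem_range.2 hj, Finset.mem_image.2 ⟨x, Finset.mem_Icc.2 ⟨h1, h2⟩, rfl⟩⟩
    have := Finset.le_sup (f := id) hmem
    simp only [id] at this
    omega
  choose ℓ hℓ using hbd
  obtain ⟨I, hI1, hI2⟩ := comb2 m hm E ℓ (fun s => {I | 1 - ε ≤ Q s (A I)}) (by
    intro s I I' hII
    have e : Q s (A I) = Q s (A I') := by
      refine Finset.sum_congr rfl fun j hj => ?_
      rw [Finset.mem_range] at hj
      congr 1
      apply ind_congr
      constructor
      · rintro ⟨x, hx, h1, h2⟩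
        exact ⟨x, (hII _ (hℓ s j hj x h1 h2)).1 hx, h1, h2⟩
      · rintro ⟨x, hx, h1, h2⟩
        exact ⟨x, (hII _ (hℓ s j hj x h1 h2)).2 hx, h1, h2⟩
    show 1 - ε ≤ Q s (A I) ↔ 1 - ε ≤ Q s (A I')
    rw [e]) (ε / 2) (by linarith) (by
    intro s
    set Gs : Set ℕ := {x | {i | x ∈ E i} ∈ {I | 1 - ε ≤ Q s (A I)}} with hGs
    have hGs' : ∀ x, x ∈ Gs ↔ 1 - ε ≤ Q s (S x) := by
      intro x
      show 1 - ε ≤ Q s (A {i | x ∈ E i}) ↔ _
      rw [hAE]
    set H : ℕ → Set ℕ := fun j => {x | Hit (S x) (v j) (C j)} with hH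
    have hQH : ∀ x, Q s (S x) = ∑ j ∈ range (n s), p s j * (H j).indicator (fun _ => (1 : ℝ)) x := by
      intro x
      refine Finset.sum_congr rfl fun j _ => ?_
      have e : ind (Hit (S x) (v j) (C j)) = (H j).indicator (fun _ => (1 : ℝ)) x := by
        by_cases hx : Hit (S x) (v j) (C j)
        · rw [ind_pos hx, Set.indicator_of_mem (show x ∈ H j from hx)]
        · rw [ind_neg hx, Set.indicator_of_notMem (show x ∉ H j from hx)]
      rw [e]
    have h1 : ∑ j ∈ range (n s), p s j * m (Gsᶜ ∩ H j) ≤ (1 - ε) * m Gsᶜ := by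
      apply wsum_le hm
      intro x hx
      rw [← hQH]
      have : ¬ (1 - ε ≤ Q s (S x)) := fun h => hx ((hGs' x).2 h)
      push Not at this
      exact this.le
    have h2 : ∑ j ∈ range (n s), p s j * m (Gs ∩ H j) ≤ 1 * m Gs := by
      apply wsum_le hm
      intro x _
      refine le_of_le_of_eq (Finset.sum_le_sum fun j _ => ?_) (hp1 s)
      by_cases hx : x ∈ H j
      · rw [Set.indicator_of_mem hx, mul_one]
      · rw [Set.indicator_of_notMem hx, mul_zero]
        exact hp s j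
    have h3 : 1 - ε / 2 ≤ ∑ j ∈ range (n s), p s j * m (H j) := by
      calc 1 - ε / 2 = ∑ j ∈ range (n s), p s j * (1 - ε / 2) := by rw [← Finset.sum_mul, hp1 s, one_mul]
        _ ≤ _ := Finset.sum_le_sum fun j _ => mul_le_mul_of_nonneg_left (hHit j) (hp s j)
    have h4 : ∑ j ∈ range (n s), p s j * m (H j) =
        ∑ j ∈ range (n s), p s j * m (Gsᶜ ∩ H j) + ∑ j ∈ range (n s), p s j * m (Gs ∩ H j) := by
      rw [← Finset.sum_add_distrib]
      refine Finset.sum_congr rfl fun j _ => ?_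
      rw [← mul_add, ← hm.add]
      · congr 2
        ext x
        simp only [Set.mem_inter_iff, Set.mem_union, Set.mem_compl_iff]
        tauto
      · rw [Set.disjoint_left]
        rintro x ⟨h1, _⟩ ⟨h2, _⟩
        exact h1 h2
    have h5 : m Gsᶜ + m Gs ≤ 1 := by
      have h9 : Disjoint Gsᶜ Gs := disjoint_compl_left
      rw [← hm.add _ _ h9, Set.compl_union_self]
      exact hm1
    have h6 := hm.nonneg Gsᶜ
    have h7 := hm.nonneg Gs
    nlinarith)
  refine ⟨A I, ⟨?_, fun T => ?_⟩, hI1⟩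
  · intro a ha
    obtain ⟨x, hx⟩ : ({x | ∀ i < Encodable.encode a + 1, (x ∈ E i ↔ i ∈ I)} : Set ℕ).Nonempty := by
      by_contra hne
      rw [Set.not_nonempty_iff_eq_empty] at hne
      have := hI2 (Encodable.encode a + 1)
      rw [hne, hm.fin _ Set.finite_empty] at this
      exact lt_irrefl _ this
    have h1 := (hx (Encodable.encode a) (Nat.lt_succ_self _)).2 ha
    have h2 : z (Encodable.encode a) ∈ S x := h1
    rw [hze] at h2
    exact (hSg x).1 a h2
  · set N : ℕ := (T.image Encodable.encode).sup id + 1 with hN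
    have hTN : ∀ t ∈ T, Encodable.encode t < N := by
      intro t ht
      have := Finset.le_sup (f := id) (Finset.mem_image_of_mem Encodable.encode ht)
      simp only [id] at this
      omega
    obtain ⟨x, hx⟩ : ({x | ∀ i < N, (x ∈ E i ↔ i ∈ I)} : Set ℕ).Nonempty := by
      by_contra hne
      rw [Set.not_nonempty_iff_eq_empty] at hne
      have := hI2 N
      rw [hne, hm.fin _ Set.finite_empty] at this
      exact lt_irrefl _ this
    refine ((hSg x).2 T).mono ?_
    rintro k ⟨hk1, hk2⟩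
    refine ⟨hk1, fun t ht => ?_⟩
    rw [hk2 t ht]
    have h1 := hx (Encodable.encode t) (hTN t ht)
    have h2 : (x ∈ E (Encodable.encode t)) ↔ t ∈ S x := by
      show z (Encodable.encode t) ∈ S x ↔ _
      rw [hze]
    rw [← h2, h1]
    rfl

end Pool.Agent.N790.BP
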