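import Mathlib
import Pool.Agent.N790.BP.Lim

/-! Arrays of integers: clusters of an infinite exact pattern near most of the entries. -/

set_option autoImplicit false

namespace Pool.Agent.N790.BP

open Finset Filter Topology

/-- Claim 2 for countable index sets -/
theorem claim3 {ι : Type} [Encodable ι] (q : ℕ) (r : ℤ) (hq : 1 ≤ q) (hqr : IsCoprime r (q : ℤ)) (ε : ℝ)
    (hε : 0 < ε) :
    ∃ C : ι → ℕ, ∀ (v : ι → ℤ), (∀ x, (q : ℤ) ∣ v x) → ∀ (T : ℕ → Finset ι) (p : ℕ → ι → ℝ),
      (∀ s x, 0 ≤ p s x) → (∀ s, ∑ x ∈ T s, p s x = 1) →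
      ∃ S, Good q r S ∧ ∃ᶠ s in atTop, 1 - ε ≤ ∑ x ∈ T s, p s x * ind (Hit S (v x) (C x)) := by
  classical
  obtain ⟨C, hC⟩ := claim2 q r hq hqr ε hε
  refine ⟨fun x => C (Encodable.encode x), fun v hv T p hp hp1 => ?_⟩
  set n : ℕ → ℕ := fun s => ((T s).image Encodable.encode).sup id + 1 with hn
  set v' : ℕ → ℤ := fun e => match Encodable.decode (α := ι) e with
    | some x => v x
    | none => 0 with hv'
  set p' : ℕ → ℕ → ℝ := fun s e => match Encodable.decode (α := ι) e with
    | some x => if x ∈ T s ∧ Encodable.encode x = e then p s x else 0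
    | none => 0 with hp'
  have hve : ∀ x, v' (Encodable.encode x) = v x := by
    intro x
    rw [hv']
    simp
  have hpe : ∀ s, ∀ x ∈ T s, p' s (Encodable.encode x) = p s x := by
    intro s x hx
    rw [hp']
    simp [hx]
  have hsum : ∀ (s : ℕ) (f : ℕ → ℝ), ∑ e ∈ range (n s), p' s e * f e =
      ∑ x ∈ T s, p s x * f (Encodable.encode x) := by
    intro s f
    have h1 : (T s).image Encodable.encode ⊆ range (n s) := by
      intro e he
      rw [Finset.mem_range]
      have := Finset.le_sup (f := id) he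
      simp only [id] at this
      rw [hn]
      simp only
      omega
    rw [← Finset.sum_subset h1]
    · rw [Finset.sum_image (fun x _ y _ h => Encodable.encode_injective h)]
      refine Finset.sum_congr rfl fun x hx => ?_
      rw [hpe s x hx]
    · intro e _ he
      have : p' s e = 0 := by
        rw [hp']
        simp only
        rcases hd : Encodable.decode (α := ι) e with _ | x
        · rfl
        · simp only
          rw [if_neg]
          rintro ⟨hx, hxe⟩
          exact he (Finset.mem_image.2 ⟨x, hx, hxe⟩)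
      rw [this, zero_mul]
  obtain ⟨S, hS1, hS2⟩ := hC v' (by
    intro e
    rw [hv']
    simp only
    rcases Encodable.decode (α := ι) e with _ | x
    · exact dvd_zero _
    · exact hv x) n p' (by
    intro s e
    rw [hp']
    simp only
    rcases Encodable.decode (α := ι) e with _ | x
    · exact le_rfl
    · simp only
      split_ifs
      · exact hp s x
      · exact le_rfl) (by
    intro s
    have := hsum s (fun _ => 1)
    simp only [mul_one] at this
    rw [this, hp1 s])
  refine ⟨S, hS1, hS2.mono fun s hs => ?_⟩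
  rw [hsum s (fun e => ind (Hit S (v' e) (C e)))] at hs
  simpa only [hve] using hs

/-- enumeration of a finite set -/
theorem enum (F : Finset ℤ) : ∃ g : ℕ → ℤ, (∀ a < F.card, g a ∈ F) ∧
    ∀ f : ℤ → ℝ, ∑ a ∈ range F.card, f (g a) = ∑ v ∈ F, f v := by
  classical
  refine ⟨fun a => if h : a < F.card then (F.equivFin.symm ⟨a, h⟩ : ℤ) else 0, fun a ha => ?_, fun f => ?_⟩
  · simp only [dif_pos ha]
    exact (F.equivFin.symm ⟨a, ha⟩).2
  · rw [Finset.sum_range]
    rw [← Finset.sum_coe_sort F f]
    rw [← Equiv.sum_comp F.equivFin.symm]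
    refine Finset.sum_congr rfl fun a _ => ?_
    simp only [dif_pos a.2]

/-- many of the intervals are met, so the union contains many elements -/
theorem cluster (S : Set ℤ) (b : ℤ) (q R N m : ℕ) (hq : 1 ≤ q) (v : ℤ) (C : ℕ) (hvb : v ≤ b)
    (hC : b + N * (q * (R + 1)) ≤ v + C) (c : ℕ → ℕ) (hc : ∀ i < N, c i ≤ R)
    (hm : (m : ℝ) ≤ ∑ i ∈ range N, ind (Hit S (b + i * (q * (R + 1))) (c i))) :
    m ≤ (S ∩ Set.Icc v (v + C)).ncard := by
  classical
  set H : Finset ℕ := (range N).filter (fun i => Hit S (b + i * (q * (R + 1))) (c i)) with hH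
  have h1 : ∑ i ∈ range N, ind (Hit S (b + i * (q * (R + 1))) (c i)) = H.card := by
    rw [hH, Finset.card_filter]
    push_cast
    refine Finset.sum_congr rfl fun i _ => ?_
    by_cases h : Hit S (b + i * (q * (R + 1))) (c i)
    · rw [ind_pos h, if_pos h]
    · rw [ind_neg h, if_neg h]
  have h2 : m ≤ H.card := by
    rw [h1] at hm
    exact_mod_cast hm
  refine h2.trans ?_
  have hfin : (S ∩ Set.Icc v (v + C)).Finite := (Set.finite_Icc v (v + C)).inter_of_right S
  have hex : ∀ i ∈ H, ∃ x ∈ S, b + i * (q * (R + 1)) ≤ x ∧ x ≤ b + i * (q * (R + 1)) + c i := by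
    intro i hi
    rw [hH, Finset.mem_filter] at hi
    exact hi.2
  choose! x hxS hx1 hx2 using hex
  have hq' : (1 : ℤ) ≤ q := by exact_mod_cast hq
  have hinj : Set.InjOn x H := by
    have key : ∀ i ∈ H, ∀ j ∈ H, i < j → x i < x j := by
      intro i hi j hj hij
      have h3 := hx2 i hi
      have h4 := hx1 j hj
      have h5 : (c i : ℤ) ≤ R := by
        have : i < N := by
          rw [hH, Finset.mem_filter, Finset.mem_range] at hi
          exact hi.1
        exact_mod_cast hc i this
      have h6 : (i : ℤ) + 1 ≤ j := by exact_mod_cast hij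
      have h7 : ((i : ℤ) + 1) * (q * (R + 1)) ≤ j * (q * (R + 1)) :=
        mul_le_mul_of_nonneg_right h6 (by positivity)
      have h8 : (R : ℤ) + 1 ≤ q * (R + 1) := by
        have h9 : (0 : ℤ) ≤ (R : ℤ) + 1 := by positivity
        nlinarith
      nlinarith
    intro i hi j hj hij
    by_contra hne
    rcases lt_or_gt_of_ne hne with h | h
    · have := key i hi j hj h
      omega
    · have := key j hj i hi h
      omega
  have h3 : ((H.image x : Finset ℤ) : Set ℤ) ⊆ S ∩ Set.Icc v (v + C) := by
    intro y hy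
    rw [Finset.coe_image] at hy
    obtain ⟨i, hi, rfl⟩ := hy
    have hi' : i < N := by
      have := hi
      rw [hH, Finset.mem_coe, Finset.mem_filter, Finset.mem_range] at this
      exact this.1
    have h4 := hx1 i hi
    have h5 := hx2 i hi
    have h6 : (c i : ℤ) ≤ R := by exact_mod_cast hc i hi'
    have h7 : (i : ℤ) + 1 ≤ N := by exact_mod_cast hi'
    have h8 : ((i : ℤ) + 1) * (q * (R + 1)) ≤ N * (q * (R + 1)) :=
      mul_le_mul_of_nonneg_right h7 (by positivity)
    have h9 : (R : ℤ) + 1 ≤ q * (R + 1) := by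
      have h9 : (0 : ℤ) ≤ (R : ℤ) + 1 := by positivity
      nlinarith
    have h10 : (0 : ℤ) ≤ i * (q * (R + 1)) := by positivity
    exact ⟨hxS i hi, ⟨by linarith, by nlinarith⟩⟩
  calc H.card = (H.image x).card := (Finset.card_image_of_injOn hinj).symm
    _ = ((H.image x : Finset ℤ) : Set ℤ).ncard := (Set.ncard_coe_finset _).symm
    _ ≤ _ := Set.ncard_le_ncard h3 hfin

open Classical in
/-- the entries of `F` with at least `m` elements of `S` in `[v, v + c]` -/
noncomputable def near (S : Set ℤ) (F : Finset ℤ) (m c : ℕ) : Finset ℤ :=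
  F.filter (fun v => m ≤ (S ∩ Set.Icc v (v + c)).ncard)

open Classical in
theorem arrays (q : ℕ) (r : ℤ) (hq : 1 ≤ q) (hqr : IsCoprime r (q : ℤ)) (k m : ℕ → ℕ) (ε : ℝ) (hε : 0 < ε) :
    ∃ C : ℕ → ℕ, ∀ V : ℕ → Finset ℤ, (∀ j, (V j).card ≤ k j) → ∀ (n : ℕ → ℕ) (p : ℕ → ℕ → ℝ),
      (∀ s j, 0 ≤ p s j) → (∀ s, ∑ j ∈ range (n s), p s j = 1) →
      ∃ S, Good q r S ∧ ∃ᶠ s in atTop, 1 - ε ≤
        ∑ j ∈ (range (n s)).filter (fun j => (1 - ε) * (V j).card ≤ (near S (V j) (m j) (C j)).card), p s j := by
  -- the number of intervals near each entry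
  set N : ℕ → ℕ := fun j => 2 * m j + 1 with hN
  obtain ⟨C, hC⟩ := claim3 (ι := Σ _ : ℕ, ℕ × ℕ) q r hq hqr (ε ^ 2 / 2) (by positivity)
  set R : ℕ → ℕ := fun j => (range (k j + 1) ×ˢ range (N j)).sup (fun y => C ⟨j, y⟩) with hR
  set C' : ℕ → ℕ := fun j => q + N j * (q * (R j + 1)) with hC'
  refine ⟨C', fun V hV n p hp hp1 => ?_⟩
  set V' : ℕ → Finset ℤ := fun j => if V j = ∅ then {0} else V j with hV'
  have hV'c : ∀ j, 1 ≤ (V' j).card ∧ (V' j).card ≤ k j + 1 := by
    intro j
    rw [hV']
    simp only
    split_ifs with h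
    · simp
    · exact ⟨Finset.card_pos.2 (Finset.nonempty_iff_ne_empty.2 h), (hV j).trans (Nat.le_succ _)⟩
  choose g hg1 hg2 using fun j => enum (V' j)
  set base : ℤ → ℤ := fun v => v + (-v) % q with hbase
  have hq0 : (0 : ℤ) < q := by exact_mod_cast hq
  have hbase1 : ∀ v, (q : ℤ) ∣ base v := by
    intro v
    rw [hbase]
    simp only
    have h1 : v + (-v) % q = -((-v) / q) * q := by
      rw [Int.emod_def]; ring
    rw [h1]
    exact Dvd.intro_left _ rfl
  have hbase2 : ∀ v, v ≤ base v ∧ base v ≤ v + q := by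
    intro v
    have h1 := Int.emod_nonneg (-v) hq0.ne'
    have h2 := Int.emod_lt_of_pos (-v) hq0
    rw [hbase]
    simp only
    constructor <;> omega
  set w : (Σ _ : ℕ, ℕ × ℕ) → ℤ := fun x =>
    base (g x.1 x.2.1) + x.2.2 * (q * (R x.1 + 1)) with hw
  set c : ℕ → ℕ := fun j => (V' j).card with hc
  set P : ℕ → (Σ _ : ℕ, ℕ × ℕ) → ℝ := fun s x => p s x.1 / (c x.1 * N x.1) with hP
  have hcpos : ∀ j, (0 : ℝ) < c j := fun j => by exact_mod_cast (hV'c j).1
  have hNpos : ∀ j, (0 : ℝ) < N j := fun j => by rw [hN]; positivity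
  obtain ⟨S, hS1, hS2⟩ := hC w (by
    intro x
    rw [hw]
    exact dvd_add (hbase1 _) ⟨x.2.2 * (R x.1 + 1), by ring⟩)
    (fun s => (range (n s)).sigma (fun j => range (c j) ×ˢ range (N j))) P
    (fun s x => div_nonneg (hp s x.1) (mul_nonneg (hcpos _).le (hNpos _).le)) (by
    intro s
    rw [Finset.sum_sigma, ← hp1 s]
    refine Finset.sum_congr rfl fun j _ => ?_
    rw [hP]
    simp only
    rw [Finset.sum_const, Finset.card_product, Finset.card_range, Finset.card_range, nsmul_eq_mul]
    have h1 := hcpos j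
    have h2 := hNpos j
    push_cast
    field_simp)
  refine ⟨S, hS1, hS2.mono fun s hs => ?_⟩
  rw [Finset.sum_sigma] at hs
  -- the contribution of one index
  set good : ℕ → Prop := fun j => (1 - ε) * (V j).card ≤ (near S (V j) (m j) (C' j)).card with hgood
  have hone : ∀ j, ∑ y ∈ range (c j) ×ˢ range (N j), P s ⟨j, y⟩ * ind (Hit S (w ⟨j, y⟩) (C ⟨j, y⟩)) ≤
      p s j * (if good j then 1 else 1 - ε / 2) := by
    intro j
    have e1 : ∑ y ∈ range (c j) ×ˢ range (N j), P s ⟨j, y⟩ * ind (Hit S (w ⟨j, y⟩) (C ⟨j, y⟩)) =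
        p s j / (c j * N j) * ∑ a ∈ range (c j), ∑ i ∈ range (N j),
          ind (Hit S (base (g j a) + i * (q * (R j + 1))) (C ⟨j, (a, i)⟩)) := by
      rw [Finset.sum_product, Finset.mul_sum]
      refine Finset.sum_congr rfl fun a _ => ?_
      rw [Finset.mul_sum]
    rw [e1]
    -- bounds for one entry
    have hRj : ∀ a < c j, ∀ i < N j, C ⟨j, (a, i)⟩ ≤ R j := by
      intro a ha i hi
      have hmem : (a, i) ∈ range (k j + 1) ×ˢ range (N j) := by
        rw [Finset.mem_product, Finset.mem_range, Finset.mem_range]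
        exact ⟨lt_of_lt_of_le ha (hV'c j).2, hi⟩
      exact Finset.le_sup (f := fun y => C ⟨j, y⟩) hmem
    have hrow : ∀ a < c j, ∑ i ∈ range (N j), ind (Hit S (base (g j a) + i * (q * (R j + 1))) (C ⟨j, (a, i)⟩)) ≤
        N j * (if g j a ∈ near S (V' j) (m j) (C' j) then 1 else 1 / 2) := by
      intro a ha
      by_cases hn : g j a ∈ near S (V' j) (m j) (C' j)
      · rw [if_pos hn, mul_one]
        calc ∑ i ∈ range (N j), ind (Hit S (base (g j a) + i * (q * (R j + 1))) (C ⟨j, (a, i)⟩))
            ≤ ∑ i ∈ range (N j), (1 : ℝ) := Finset.sum_le_sum fun i _ => ind_le_one _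
          _ = N j := by simp
      · rw [if_neg hn]
        by_contra hlt
        push Not at hlt
        apply hn
        unfold near
        rw [Finset.mem_filter]
        refine ⟨hg1 j a ha, ?_⟩
        refine cluster S (base (g j a)) q (R j) (N j) (m j) hq (g j a) (C' j) (hbase2 _).1 ?_
          (fun i => C ⟨j, (a, i)⟩) (fun i hi => hRj a ha i hi) ?_
        · have := (hbase2 (g j a)).2
          rw [hC']
          push_cast
          linarith
        · refine le_trans ?_ hlt.le
          rw [hN]
          push_cast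
          linarith
    have hrows : ∑ a ∈ range (c j), ∑ i ∈ range (N j),
        ind (Hit S (base (g j a) + i * (q * (R j + 1))) (C ⟨j, (a, i)⟩)) ≤
        N j * (c j / 2 + (near S (V' j) (m j) (C' j)).card / 2) := by
      calc ∑ a ∈ range (c j), ∑ i ∈ range (N j),
            ind (Hit S (base (g j a) + i * (q * (R j + 1))) (C ⟨j, (a, i)⟩))
          ≤ ∑ a ∈ range (c j), (N j : ℝ) * (if g j a ∈ near S (V' j) (m j) (C' j) then 1 else 1 / 2) :=
            Finset.sum_le_sum fun a ha => hrow a (Finset.mem_range.1 ha)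
        _ = ∑ v ∈ V' j, (N j : ℝ) * (if v ∈ near S (V' j) (m j) (C' j) then 1 else 1 / 2) :=
            hg2 j (fun v => (N j : ℝ) * (if v ∈ near S (V' j) (m j) (C' j) then 1 else 1 / 2))
        _ = N j * ∑ v ∈ V' j, ((1 : ℝ) / 2 + if v ∈ near S (V' j) (m j) (C' j) then 1 / 2 else 0) := by
            rw [Finset.mul_sum]
            refine Finset.sum_congr rfl fun v _ => ?_
            split_ifs <;> norm_num
        _ = N j * (c j / 2 + (near S (V' j) (m j) (C' j)).card / 2) := by
            congr 1
            rw [Finset.sum_add_distrib, Finset.sum_const, nsmul_eq_mul, ← Finset.sum_filter,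
              Finset.sum_const, nsmul_eq_mul]
            have e2 : (V' j).filter (fun v => v ∈ near S (V' j) (m j) (C' j)) =
                near S (V' j) (m j) (C' j) := by
              ext v
              rw [Finset.mem_filter]
              constructor
              · exact fun h => h.2
              · intro h
                refine ⟨?_, h⟩
                unfold near at h
                rw [Finset.mem_filter] at h
                exact h.1
            rw [e2]
            ring
    have hcN : 0 < (c j : ℝ) * N j := mul_pos (hcpos j) (hNpos j)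
    have hnearle : ((near S (V' j) (m j) (C' j)).card : ℝ) ≤ c j := by
      have : (near S (V' j) (m j) (C' j)).card ≤ (V' j).card := by
        unfold near
        exact Finset.card_filter_le _ _
      exact_mod_cast this
    have hfin : ∑ a ∈ range (c j), ∑ i ∈ range (N j),
        ind (Hit S (base (g j a) + i * (q * (R j + 1))) (C ⟨j, (a, i)⟩)) ≤
        (c j * N j) * (if good j then 1 else 1 - ε / 2) := by
      refine hrows.trans ?_
      have hN0 := hNpos j
      split_ifs with hgj
      · nlinarith
      · -- the entry is bad, so `V j` is not empty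
        have hVne : V j ≠ ∅ := by
          intro h0
          apply hgj
          rw [hgood]
          simp only
          rw [h0]
          simp
        have hVV : V' j = V j := by
          rw [hV']
          simp only
          rw [if_neg hVne]
        rw [hgood] at hgj
        simp only at hgj
        push Not at hgj
        have hcj : (c j : ℝ) = (V j).card := by rw [hc]; simp only; rw [hVV]
        rw [hVV, hcj]
        nlinarith
    calc p s j / (c j * N j) * ∑ a ∈ range (c j), ∑ i ∈ range (N j),
          ind (Hit S (base (g j a) + i * (q * (R j + 1))) (C ⟨j, (a, i)⟩))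
        ≤ p s j / (c j * N j) * ((c j * N j) * (if good j then 1 else 1 - ε / 2)) :=
          mul_le_mul_of_nonneg_left hfin (div_nonneg (hp s j) hcN.le)
      _ = p s j * (if good j then 1 else 1 - ε / 2) := by
          rw [← mul_assoc, div_mul_cancel₀ _ hcN.ne']
  have htot : 1 - ε ^ 2 / 2 ≤ ∑ j ∈ range (n s), p s j * (if good j then 1 else 1 - ε / 2) :=
    hs.trans (Finset.sum_le_sum fun j _ => hone j)
  have e3 : ∑ j ∈ range (n s), p s j * (if good j then 1 else 1 - ε / 2) =
      (1 - ε / 2) * ∑ j ∈ range (n s), p s j + ε / 2 * ∑ j ∈ (range (n s)).filter good, p s j := by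
    rw [Finset.sum_filter, Finset.mul_sum, Finset.mul_sum, ← Finset.sum_add_distrib]
    refine Finset.sum_congr rfl fun j _ => ?_
    by_cases hgj : good j
    · rw [if_pos hgj, if_pos hgj]; ring
    · rw [if_neg hgj, if_neg hgj]; ring
  rw [e3, hp1 s] at htot
  have h5 : ε / 2 * (1 - ε) ≤ ε / 2 * ∑ j ∈ (range (n s)).filter good, p s j := by nlinarith
  exact le_of_mul_le_mul_left h5 (by linarith)

end Pool.Agent.N790.BP
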