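import Mathlib
import Pool.Agent.N790.BP.Nest

/-! Geometric progressions: forms `b ^ t n + u`. Leaves and nested configurations. -/

set_option autoImplicit false

namespace Pool.Agent.N790.BP

open Finset Filter Topology
open Pool.Agent.H361R2.Inf

/-- the sets of exponents which are exact patterns for the forms `b ^ t n + u` -/
def GoodK (b : ℕ) (u : ℤ) (S : Set ℕ) : Prop :=
  ∀ T : Finset ℕ, {n : ℕ | ∀ t ∈ T, (Nat.Prime ((b : ℤ) ^ t * n + u).toNat ↔ t ∈ S)}.Infinite

/-- `S` contains a number `v + k`, `k ≤ c` -/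
def HitK (S : Set ℕ) (v c : ℕ) : Prop := ∃ k, k ≤ c ∧ v + k ∈ S

theorem GoodK.shift {b : ℕ} {u : ℤ} {S : Set ℕ} (hb : 1 ≤ b) (hS : GoodK b u S) (c : ℕ) :
    GoodK b u {x | x + c ∈ S} := by
  intro T
  have h1 := hS (T.image (fun t => t + c))
  refine (h1.image (f := fun n : ℕ => b ^ c * n) ?_).mono ?_
  · intro x _ y _ hxy
    exact Nat.eq_of_mul_eq_mul_left (Nat.pow_pos hb) hxy
  · rintro _ ⟨n, hn, rfl⟩ t ht
    have h2 := hn (t + c) (Finset.mem_image.2 ⟨t, ht, rfl⟩)
    have h3 : ((b : ℤ) ^ t * ((b ^ c * n : ℕ) : ℤ) + u) = ((b : ℤ) ^ (t + c) * n + u) := by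
      push_cast; ring
    show Nat.Prime ((b : ℤ) ^ t * ((b ^ c * n : ℕ) : ℤ) + u).toNat ↔ _
    rw [h3, h2]
    rfl

theorem hitK_shift (S : Set ℕ) (a c k : ℕ) : HitK {x | x + c ∈ S} a k ↔ HitK S (c + a) k := by
  constructor
  · rintro ⟨x, h2, hx⟩
    refine ⟨x, h2, ?_⟩
    have : c + a + x = a + x + c := by ring
    rw [this]
    exact hx
  · rintro ⟨x, h2, hx⟩
    refine ⟨x, h2, ?_⟩
    show a + x + c ∈ S
    have : a + x + c = c + a + x := by ring
    rw [this]
    exact hx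

theorem greedyK (F : ℕ → Finset ℕ) (hF : ∀ e, e < (F e).card) :
    ∃ b : ℕ → ℕ, Function.Injective b ∧ ∀ e, b e ∈ F e := by
  classical
  refine (Finset.all_card_le_biUnion_card_iff_exists_injective F).1 fun s => ?_
  rcases s.eq_empty_or_nonempty with rfl | hs
  · simp
  · have h1 : s ⊆ range (s.max' hs + 1) := by
      intro x hx
      rw [Finset.mem_range, Nat.lt_succ_iff]
      exact s.le_max' x hx
    have h2 := Finset.card_le_card h1
    rw [Finset.card_range] at h2
    have h3 : F (s.max' hs) ⊆ s.biUnion F := Finset.subset_biUnion_of_mem F (s.max'_mem hs)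
    have h4 := Finset.card_le_card h3
    have h5 := hF (s.max' hs)
    omega

theorem leavesK : ∃ off : ℕ → ℕ, StrictMono off ∧ ∀ (b : ℕ) (u : ℤ), 2 ≤ b → IsCoprime (b : ℤ) u →
    ∀ (w : ℕ → ℝ) (J : ℕ), (∀ t ∈ range J, 0 ≤ w t) → ∑ t ∈ range J, w t = 1 →
    ∀ pos : ℕ → ℕ, ∃ S : Set ℕ, GoodK b u S ∧
      1 / 500 ≤ ∑ t ∈ range J, w t * ind (HitK S (pos t) (off (t + 1))) := by
  classical
  obtain ⟨off, hoff, h0, hBM⟩ := exists_blockMeas
  refine ⟨off, hoff, fun b u hb hbu w J hw hw1 pos => ?_⟩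
  set F : ℕ → Finset ℕ := fun e => (range (off (blk off hoff e + 1) + 1)).image
    (fun k : ℕ => pos (blk off hoff e) + k) with hF
  have hFc : ∀ e, e < (F e).card := by
    intro e
    rw [hF]
    simp only
    rw [Finset.card_image_of_injective, Finset.card_range]
    · have := blk_lt off hoff e
      omega
    · intro x y hxy
      simp only at hxy
      omega
  obtain ⟨g, hg, hgF⟩ := greedyK F hFc
  have hgI : ∀ e, ∃ k, k ≤ off (blk off hoff e + 1) ∧ g e = pos (blk off hoff e) + k := by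
    intro e
    have := hgF e
    rw [hF] at this
    simp only [Finset.mem_image, Finset.mem_range] at this
    obtain ⟨k, hk2, hk⟩ := this
    exact ⟨k, by omega, hk.symm⟩
  have hb1 : ∀ t : ℕ, (1 : ℤ) ≤ (b : ℤ) ^ t := by
    intro t
    have h1 : 1 ≤ b ^ t := Nat.one_le_pow _ _ (by omega)
    exact_mod_cast h1
  have hbinj : ∀ s t : ℕ, (b : ℤ) ^ s = (b : ℤ) ^ t → s = t := by
    intro s t h
    exact Nat.pow_right_injective hb (by exact_mod_cast h)
  have hw' : ∀ t, 0 ≤ (fun t => if t < J then w t else 0) t := by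
    intro t
    show 0 ≤ if t < J then w t else 0
    split_ifs with h
    · exact hw t (Finset.mem_range.2 h)
    · exact le_rfl
  have hw1' : ∑ t ∈ range J, (fun t => if t < J then w t else 0) t = 1 := by
    rw [← hw1]
    refine Finset.sum_congr rfl fun t ht => ?_
    rw [Finset.mem_range] at ht
    simp only [if_pos ht]
  set w' : ℕ → ℝ := fun t => if t < J then w t else 0 with hw'def
  have hex := exact_seq_of (fun I => 1 / 500 ≤ wt off w' J I) off (by
    intro A B hA hne W r hW hWp hc hcop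
    exact inf_class_of_combP (fun I => 1 / 500 ≤ wt off w' J I) off hoff h0 (1 / 200) (by norm_num)
      (hcombW off hoff w' J hw' hw1') hBM A B hA hne W r hW hWp hc hcop)
    (fun e => (b : ℤ) ^ g e) (fun _ => u) (fun e => hb1 _) (fun e => hbu.pow_left) (by
      intro i j hij
      simp only [Prod.mk.injEq, and_true] at hij
      exact hg (hbinj _ _ hij)) (by
      intro p hp
      by_cases hpu : (p : ℤ) ∣ u
      · refine ⟨1, fun e hdvd => ?_⟩
        have h1 : (p : ℤ) ∣ (b : ℤ) ^ g e := by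
          have h2 : (p : ℤ) ∣ (b : ℤ) ^ g e * 1 + u := by exact_mod_cast hdvd
          rw [mul_one] at h2
          exact (dvd_add_left hpu).1 h2
        have h2 : IsUnit (p : ℤ) := (hbu.pow_left (m := g e)).isUnit_of_dvd' h1 hpu
        rw [Int.isUnit_iff] at h2
        have := hp.two_le
        omega
      · exact ⟨0, fun e hdvd => hpu (by simpa using hdvd)⟩)
  obtain ⟨I, hI, hT⟩ := hex
  refine ⟨g '' I, ?_, ?_⟩
  · intro T
    have h1 := hT (T.image (fun t : ℕ => ((b : ℤ) ^ t, u))) (by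
      intro f hf
      rw [Finset.mem_image] at hf
      obtain ⟨t, ht, rfl⟩ := hf
      exact hb1 t)
    refine h1.mono ?_
    intro x hx t ht
    have h4 := hx (((b : ℤ) ^ t, u)) (Finset.mem_image.2 ⟨t, ht, rfl⟩)
    simp only at h4
    rw [h4]
    constructor
    · rintro ⟨i, hi, heq⟩
      simp only [Prod.mk.injEq, and_true] at heq
      exact ⟨i, hi, (hbinj _ _ heq.symm)⟩
    · rintro ⟨i, hi, rfl⟩
      exact ⟨i, hi, rfl⟩
  · have hset : {i | g i ∈ g '' I} = I := by
      ext i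
      simp only [Set.mem_ofPred_eq]
      constructor
      · rintro ⟨j, hj, hji⟩
        rwa [← hg hji]
      · intro hi
        exact ⟨i, hi, rfl⟩
    refine hI.trans ?_
    unfold wt
    refine Finset.sum_le_sum fun t ht => ?_
    rw [Finset.mem_range] at ht
    by_cases h : ∃ i ∈ Ico (off t) (off (t + 1)), i ∈ I
    · rw [if_pos h]
      obtain ⟨i, hi, hiS⟩ := h
      rw [Finset.mem_Ico] at hi
      have h1 := blk_eq off hoff hi.1 hi.2
      obtain ⟨k, hk2, hk⟩ := hgI i
      rw [h1] at hk2 hk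
      rw [ind_pos (show HitK (g '' I) (pos t) (off (t + 1)) from
        ⟨k, hk2, by rw [← hk]; exact ⟨i, hiS, rfl⟩⟩)]
      simp only [hw'def, if_pos ht]
      rw [mul_one]
    · rw [if_neg h]
      exact mul_nonneg (hw t (Finset.mem_range.2 ht)) (ind_nonneg _)

/-- a finite configuration of exponents, with indices starting at `i0`, whose neighbourhoods are met by
every exact pattern with weight at most `β` -/
def ConfK (ln : ℕ → ℕ) (b : ℕ) (u : ℤ) (β : ℝ) (i0 : ℕ) (L : ℕ) (pos : ℕ → ℕ) (w : ℕ → ℝ) (D : ℕ) : Prop :=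
  1 ≤ L ∧ (∀ t, 0 ≤ w t) ∧ ∑ t ∈ Ico i0 (i0 + L), w t = 1 ∧
    (∀ t ∈ Ico i0 (i0 + L), pos t + ln t ≤ D) ∧
    ∀ S, GoodK b u S → ∑ t ∈ Ico i0 (i0 + L), w t * ind (HitK S (pos t) (ln t)) ≤ β

/-- the negation of the theorem -/
def NegK (b : ℕ) (u : ℤ) (ρ : ℝ) : Prop := ∀ C : ℕ → ℕ, ∃ (v : ℕ → ℕ) (p : ℕ → ℝ) (s : ℕ),
  (∀ j, 0 ≤ p j) ∧ ∑ j ∈ range s, p j = 1 ∧
    ∀ S, GoodK b u S → ∑ j ∈ range s, p j * ind (HitK S (v j) (C j)) ≤ ρ

end Pool.Agent.N790.BP
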