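import Mathlib
import Pool.Agent.N790.BP.Conf
import Pool.Agent.N790.BP.KLeaf

/-! Geometric progressions: nested configurations. -/

set_option autoImplicit false

namespace Pool.Agent.N790.BP

open Finset Filter Topology

theorem confK_succ (ln : ℕ → ℕ) (b : ℕ) (u : ℤ) (hb : 1 ≤ b) (ρ β : ℝ) (hβ : 0 ≤ β) (hneg : NegK b u ρ)
    (h : ∀ i0, ∃ L pos w D, ConfK ln b u β i0 L pos w D) :
    ∀ i0, ∃ L pos w D, ConfK ln b u (ρ * β) i0 L pos w D := by
  classical
  intro i0
  choose L pos w D hC using h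
  -- the first indices of the children
  set st : ℕ → ℕ := fun j => Nat.rec i0 (fun _ x => x + L x) j with hst
  have hst0 : st 0 = i0 := rfl
  have hsts : ∀ j, st (j + 1) = st j + L (st j) := fun j => rfl
  have hmono : StrictMono st := strictMono_nat_of_lt_succ fun j => by
    rw [hsts]
    have := (hC (st j)).1
    omega
  obtain ⟨v, p, s, hp, hp1, hpS⟩ := hneg (fun j => D (st j))
  have hex : ∀ t, ∃ j, t < st (j + 1) := fun t => ⟨t, lt_of_lt_of_le (Nat.lt_succ_self t) (hmono.id_le (t + 1))⟩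
  set ch : ℕ → ℕ := fun t => Nat.find (hex t) with hch
  have hch_eq : ∀ t j, t ∈ Ico (st j) (st (j + 1)) → ch t = j := by
    intro t j ht
    rw [Finset.mem_Ico] at ht
    refine le_antisymm (Nat.find_min' _ ht.2) ?_
    by_contra hlt
    push Not at hlt
    have h3 : t < st (ch t + 1) := Nat.find_spec (hex t)
    have h4 : st (ch t + 1) ≤ st j := hmono.monotone hlt
    omega
  have hchild : ∀ t ∈ Ico i0 (st s), ∃ j < s, t ∈ Ico (st j) (st (j + 1)) := by
    intro t ht
    rw [Finset.mem_Ico] at ht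
    have h3 : t < st (ch t + 1) := Nat.find_spec (hex t)
    have hle : st (ch t) ≤ t := by
      rcases Nat.eq_zero_or_pos (ch t) with h0 | h0
      · rw [h0, hst0]; exact ht.1
      · have := Nat.find_min (hex t) (m := ch t - 1) (Nat.sub_lt h0 one_pos)
        have e1 : ch t - 1 + 1 = ch t := by omega
        rw [not_lt, e1] at this
        exact this
    refine ⟨ch t, ?_, Finset.mem_Ico.2 ⟨hle, h3⟩⟩
    by_contra hlt
    push Not at hlt
    have := hmono.monotone hlt
    omega
  set w' : ℕ → ℝ := fun t => p (ch t) * w (st (ch t)) t with hw'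
  set pos' : ℕ → ℕ := fun t => v (ch t) + pos (st (ch t)) t with hpos'
  set D' : ℕ := ∑ j ∈ range s, (v j + D (st j)) with hD'
  have hi0s : i0 ≤ st s := by
    have := hmono.monotone (Nat.zero_le s)
    rwa [hst0] at this
  have hLs : i0 + (st s - i0) = st s := by omega
  refine ⟨st s - i0, pos', w', D', ?_, ?_, ?_, ?_, ?_⟩
  · have hs : s ≠ 0 := by
      rintro rfl
      rw [Finset.sum_range_zero] at hp1
      norm_num at hp1
    have := hmono (Nat.pos_of_ne_zero hs)
    rw [hst0] at this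
    omega
  · intro t
    exact mul_nonneg (hp _) ((hC _).2.1 t)
  · rw [hLs, ← hst0, sum_blocks st hmono.monotone, ← hp1]
    refine Finset.sum_congr rfl fun j _ => ?_
    have h1 : ∑ t ∈ Ico (st j) (st (j + 1)), w' t = ∑ t ∈ Ico (st j) (st j + L (st j)), p j * w (st j) t := by
      refine Finset.sum_congr (by rw [hsts]) fun t ht => ?_
      rw [hw']
      simp only
      rw [hch_eq t j (by rw [hsts]; exact ht)]
    rw [h1, ← Finset.mul_sum, (hC (st j)).2.2.1, mul_one]
  · intro t ht
    rw [hLs] at ht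
    obtain ⟨j, hj, htj⟩ := hchild t ht
    have h1 := (hC (st j)).2.2.2.1 t (by rw [← hsts]; exact htj)
    have h3 : v j + D (st j) ≤ D' :=
      Finset.single_le_sum (f := fun j => v j + D (st j)) (fun _ _ => Nat.zero_le _) (Finset.mem_range.2 hj)
    rw [hpos']
    simp only
    rw [hch_eq t j htj]
    omega
  · intro S hS
    rw [hLs, ← hst0, sum_blocks st hmono.monotone]
    have h1 : ∀ j ∈ range s, ∑ t ∈ Ico (st j) (st (j + 1)), w' t * ind (HitK S (pos' t) (ln t)) ≤
        β * (p j * ind (HitK S (v j) (D (st j)))) := by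
      intro j hj
      rw [Finset.mem_range] at hj
      have e1 : ∑ t ∈ Ico (st j) (st (j + 1)), w' t * ind (HitK S (pos' t) (ln t)) =
          p j * ∑ t ∈ Ico (st j) (st j + L (st j)), w (st j) t *
            ind (HitK {x | x + v j ∈ S} (pos (st j) t) (ln t)) := by
        rw [Finset.mul_sum]
        refine Finset.sum_congr (by rw [hsts]) fun t ht => ?_
        rw [hw', hpos']
        simp only
        rw [hch_eq t j (by rw [hsts]; exact ht), ind_congr (hitK_shift S (pos (st j) t) (v j) (ln t))]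
        ring
      rw [e1]
      by_cases hH : HitK S (v j) (D (st j))
      · rw [ind_pos hH, mul_one, mul_comm β]
        refine mul_le_mul_of_nonneg_left ?_ (hp j)
        exact (hC (st j)).2.2.2.2 _ (hS.shift hb (v j))
      · rw [ind_neg hH, mul_zero, mul_zero]
        have e2 : ∑ t ∈ Ico (st j) (st j + L (st j)), w (st j) t *
            ind (HitK {x | x + v j ∈ S} (pos (st j) t) (ln t)) = 0 := by
          refine Finset.sum_eq_zero fun t ht => ?_
          rw [ind_neg, mul_zero]
          rintro ⟨k, hk2, hk⟩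
          have h5 := (hC (st j)).2.2.2.1 t ht
          refine hH ⟨pos (st j) t + k, by omega, ?_⟩
          have : v j + (pos (st j) t + k) = pos (st j) t + k + v j := by ring
          rw [this]
          exact hk
        rw [e2, mul_zero]
    calc ∑ j ∈ range s, ∑ t ∈ Ico (st j) (st (j + 1)), w' t * ind (HitK S (pos' t) (ln t))
        ≤ ∑ j ∈ range s, β * (p j * ind (HitK S (v j) (D (st j)))) := Finset.sum_le_sum h1
      _ = β * ∑ j ∈ range s, p j * ind (HitK S (v j) (D (st j))) := by rw [Finset.mul_sum]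
      _ ≤ β * ρ := mul_le_mul_of_nonneg_left (hpS _ hS) hβ
      _ = ρ * β := mul_comm _ _

theorem confK_all (ln : ℕ → ℕ) (b : ℕ) (u : ℤ) (hb : 1 ≤ b) (ρ : ℝ) (hρ : 0 ≤ ρ) (hneg : NegK b u ρ) (d : ℕ) :
    ∀ i0, ∃ L pos w D, ConfK ln b u (ρ ^ d) i0 L pos w D := by
  induction d with
  | zero =>
    intro i0
    refine ⟨1, fun _ => 1, fun _ => 1, 1 + ln i0, le_rfl, fun _ => zero_le_one, by simp, ?_, ?_⟩
    · intro t ht
      rw [Finset.mem_Ico] at ht
      have : t = i0 := by omega
      subst this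
      exact le_rfl
    · intro S _
      simp only [pow_zero, Nat.Ico_succ_singleton, Finset.sum_singleton, one_mul]
      exact ind_le_one _
  | succ d ih =>
    intro i0
    rw [pow_succ, mul_comm]
    exact confK_succ ln b u hb ρ (ρ ^ d) (pow_nonneg hρ d) hneg ih i0

theorem claim1K (b : ℕ) (u : ℤ) (hb : 2 ≤ b) (hbu : IsCoprime (b : ℤ) u) (ρ : ℝ) (hρ0 : 0 ≤ ρ) (hρ : ρ < 1) :
    ∃ C : ℕ → ℕ, ∀ (v : ℕ → ℕ) (p : ℕ → ℝ) (s : ℕ), (∀ j, 0 ≤ p j) →
      ∑ j ∈ range s, p j = 1 → ∃ S, GoodK b u S ∧ ρ < ∑ j ∈ range s, p j * ind (HitK S (v j) (C j)) := by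
  obtain ⟨off, hoff, hlv⟩ := leavesK
  by_contra hcon
  push Not at hcon
  have hneg : NegK b u ρ := hcon
  obtain ⟨d, hd⟩ := exists_pow_lt_of_lt_one (show (0 : ℝ) < 1 / 500 by norm_num) hρ
  obtain ⟨L, pos, w, D, hL, hw, hw1, hpos, hS⟩ :=
    confK_all (fun t => off (t + 1)) b u (by omega) ρ hρ0 hneg d 0
  rw [zero_add, Nat.Ico_zero_eq_range] at hw1 hpos
  obtain ⟨S, hS1, hS2⟩ := hlv b u hb hbu w L (fun t _ => hw t) hw1 pos
  have h1 := hS S hS1
  rw [zero_add, Nat.Ico_zero_eq_range] at h1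
  linarith

end Pool.Agent.N790.BP
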