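import Mathlib
import Pool.Agent.N790.BP.Nest

/-! The multiplicative version: forms `t n + u` with `u = 1` or `u = -1`. Leaves and nested configurations. -/

set_option autoImplicit false

namespace Pool.Agent.N790.BP

open Finset Filter Topology
open Pool.Agent.H361R2.Inf

/-- the sets of positive slopes which are exact patterns for the forms `t n + u` -/
def GoodM (u : ℤ) (S : Set ℕ) : Prop :=
  (∀ t ∈ S, 1 ≤ t) ∧ ∀ T : Finset ℕ, (∀ t ∈ T, 1 ≤ t) →
    {n : ℕ | ∀ t ∈ T, (Nat.Prime ((t : ℤ) * n + u).toNat ↔ t ∈ S)}.Infinite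

/-- `S` contains a multiple `v k`, `1 ≤ k ≤ c` -/
def HitM (S : Set ℕ) (v c : ℕ) : Prop := ∃ k, 1 ≤ k ∧ k ≤ c ∧ v * k ∈ S

theorem GoodM.scale {u : ℤ} {S : Set ℕ} (hS : GoodM u S) {c : ℕ} (hc : 1 ≤ c) :
    GoodM u {x | x * c ∈ S} := by
  refine ⟨fun a ha => ?_, fun T hT => ?_⟩
  · have h1 := hS.1 _ ha
    by_contra h
    have : a = 0 := by omega
    rw [this] at h1
    simp at h1
  · have h1 := hS.2 (T.image (fun t => t * c)) (by
      intro t ht
      rw [Finset.mem_image] at ht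
      obtain ⟨s, hs, rfl⟩ := ht
      exact Nat.mul_pos (hT s hs) hc)
    refine (h1.image (f := fun n : ℕ => c * n) ?_).mono ?_
    · intro x _ y _ hxy
      exact Nat.eq_of_mul_eq_mul_left hc hxy
    · rintro _ ⟨n, hn, rfl⟩ t ht
      have h2 := hn (t * c) (Finset.mem_image.2 ⟨t, ht, rfl⟩)
      have h3 : ((t : ℤ) * ((c * n : ℕ) : ℤ) + u) = (((t * c : ℕ) : ℤ) * n + u) := by
        push_cast; ring
      show Nat.Prime ((t : ℤ) * ((c * n : ℕ) : ℤ) + u).toNat ↔ _
      rw [h3, h2]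
      rfl

theorem hitM_scale (S : Set ℕ) (a c k : ℕ) : HitM {x | x * c ∈ S} a k ↔ HitM S (c * a) k := by
  constructor
  · rintro ⟨x, h1, h2, hx⟩
    refine ⟨x, h1, h2, ?_⟩
    have : c * a * x = a * x * c := by ring
    rw [this]
    exact hx
  · rintro ⟨x, h1, h2, hx⟩
    refine ⟨x, h1, h2, ?_⟩
    show a * x * c ∈ S
    have : a * x * c = c * a * x := by ring
    rw [this]
    exact hx

theorem greedyN (F : ℕ → Finset ℕ) (hF : ∀ e, e < (F e).card) :
    ∃ b : ℕ → ℕ, Function.Injective b ∧ ∀ e, b e ∈ F e := by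
  classical
  refine (Finset.all_card_le_biUnion_card_iff_exists_injective F).1 fun s => ?_
  rcases s.eq_empty_or_nonempty with rfl | hs
  · simp
  · have h1 : s ⊆ range (s.max' hs + 1) := by
      intro x hx
      rw [Finset.mem_range, Nat.lt_succ_iff]
      exact s.le_max' x hx
    have h2 := Finset.card_le_card h1
    rw [Finset.card_range] at h2
    have h3 : F (s.max' hs) ⊆ s.biUnion F := Finset.subset_biUnion_of_mem F (s.max'_mem hs)
    have h4 := Finset.card_le_card h3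
    have h5 := hF (s.max' hs)
    omega

theorem leavesM : ∃ off : ℕ → ℕ, StrictMono off ∧ ∀ (u : ℤ), u = 1 ∨ u = -1 →
    ∀ (w : ℕ → ℝ) (J : ℕ), (∀ t ∈ range J, 0 ≤ w t) → ∑ t ∈ range J, w t = 1 →
    ∀ pos : ℕ → ℕ, (∀ t, 1 ≤ pos t) → ∃ S : Set ℕ, GoodM u S ∧
      1 / 500 ≤ ∑ t ∈ range J, w t * ind (HitM S (pos t) (off (t + 1))) := by
  classical
  obtain ⟨off, hoff, h0, hBM⟩ := exists_blockMeas
  refine ⟨off, hoff, fun u hu w J hw hw1 pos hpos => ?_⟩
  set F : ℕ → Finset ℕ := fun e => (Finset.Icc 1 (off (blk off hoff e + 1))).image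
    (fun k : ℕ => pos (blk off hoff e) * k) with hF
  have hFc : ∀ e, e < (F e).card := by
    intro e
    rw [hF]
    simp only
    rw [Finset.card_image_of_injective, Nat.card_Icc]
    · have := blk_lt off hoff e
      omega
    · intro x y hxy
      exact Nat.eq_of_mul_eq_mul_left (hpos _) hxy
  obtain ⟨b, hb, hbF⟩ := greedyN F hFc
  have hbI : ∀ e, ∃ k, 1 ≤ k ∧ k ≤ off (blk off hoff e + 1) ∧ b e = pos (blk off hoff e) * k := by
    intro e
    have := hbF e
    rw [hF] at this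
    simp only [Finset.mem_image, Finset.mem_Icc] at this
    obtain ⟨k, ⟨hk1, hk2⟩, hk⟩ := this
    exact ⟨k, hk1, hk2, hk.symm⟩
  have hb1 : ∀ e, 1 ≤ b e := by
    intro e
    obtain ⟨k, hk1, _, hk⟩ := hbI e
    rw [hk]
    exact Nat.mul_pos (hpos _) hk1
  have hw' : ∀ t, 0 ≤ (fun t => if t < J then w t else 0) t := by
    intro t
    show 0 ≤ if t < J then w t else 0
    split_ifs with h
    · exact hw t (Finset.mem_range.2 h)
    · exact le_rfl
  have hw1' : ∑ t ∈ range J, (fun t => if t < J then w t else 0) t = 1 := by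
    rw [← hw1]
    refine Finset.sum_congr rfl fun t ht => ?_
    rw [Finset.mem_range] at ht
    simp only [if_pos ht]
  set w' : ℕ → ℝ := fun t => if t < J then w t else 0 with hw'def
  have hucop : ∀ x : ℤ, IsCoprime x u := by
    intro x
    rcases hu with rfl | rfl
    · exact isCoprime_one_right
    · exact isCoprime_one_right.neg_right
  have hex := exact_seq_of (fun I => 1 / 500 ≤ wt off w' J I) off (by
    intro A B hA hne W r hW hWp hc hcop
    exact inf_class_of_combP (fun I => 1 / 500 ≤ wt off w' J I) off hoff h0 (1 / 200) (by norm_num)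
      (hcombW off hoff w' J hw' hw1') hBM A B hA hne W r hW hWp hc hcop)
    (fun e => (b e : ℤ)) (fun _ => u) (fun e => by exact_mod_cast hb1 e) (fun e => hucop _) (by
      intro i j hij
      simp only [Prod.mk.injEq, and_true] at hij
      exact hb (by exact_mod_cast hij)) (by
      intro p hp
      refine ⟨0, fun e hdvd => ?_⟩
      have h1 : (p : ℤ) ∣ u := by simpa using hdvd
      have h2 : IsUnit (p : ℤ) := by
        rcases hu with rfl | rfl
        · exact isUnit_of_dvd_one h1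
        · exact isUnit_of_dvd_one ((dvd_neg).1 h1)
      rw [Int.isUnit_iff] at h2
      have := hp.two_le
      omega)
  obtain ⟨I, hI, hT⟩ := hex
  refine ⟨b '' I, ⟨?_, ?_⟩, ?_⟩
  · rintro a ⟨i, _, rfl⟩
    exact hb1 i
  · intro T hT1
    have h1 := hT (T.image (fun t : ℕ => ((t : ℤ), u))) (by
      intro f hf
      rw [Finset.mem_image] at hf
      obtain ⟨t, ht, rfl⟩ := hf
      show (1 : ℤ) ≤ t
      exact_mod_cast hT1 t ht)
    refine h1.mono ?_
    intro x hx t ht
    have h4 := hx (((t : ℤ), u)) (Finset.mem_image.2 ⟨t, ht, rfl⟩)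
    simp only at h4
    rw [h4]
    constructor
    · rintro ⟨i, hi, heq⟩
      simp only [Prod.mk.injEq, and_true] at heq
      exact ⟨i, hi, by exact_mod_cast heq.symm⟩
    · rintro ⟨i, hi, rfl⟩
      exact ⟨i, hi, rfl⟩
  · have hset : {i | b i ∈ b '' I} = I := by
      ext i
      simp only [Set.mem_ofPred_eq]
      constructor
      · rintro ⟨j, hj, hji⟩
        rwa [← hb hji]
      · intro hi
        exact ⟨i, hi, rfl⟩
    refine hI.trans ?_
    unfold wt
    refine Finset.sum_le_sum fun t ht => ?_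
    rw [Finset.mem_range] at ht
    by_cases h : ∃ i ∈ Ico (off t) (off (t + 1)), i ∈ I
    · rw [if_pos h]
      obtain ⟨i, hi, hiS⟩ := h
      rw [Finset.mem_Ico] at hi
      have h1 := blk_eq off hoff hi.1 hi.2
      obtain ⟨k, hk1, hk2, hk⟩ := hbI i
      rw [h1] at hk2 hk
      rw [ind_pos (show HitM (b '' I) (pos t) (off (t + 1)) from
        ⟨k, hk1, hk2, by rw [← hk]; exact ⟨i, hiS, rfl⟩⟩)]
      simp only [hw'def, if_pos ht]
      rw [mul_one]
    · rw [if_neg h]
      exact mul_nonneg (hw t (Finset.mem_range.2 ht)) (ind_nonneg _)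

/-- a finite configuration of positive integers, with indices starting at `i0`, whose multiples are met by
every exact pattern with weight at most `β` -/
def ConfM (ln : ℕ → ℕ) (u : ℤ) (β : ℝ) (i0 : ℕ) (L : ℕ) (pos : ℕ → ℕ) (w : ℕ → ℝ) (D : ℕ) : Prop :=
  1 ≤ L ∧ (∀ t, 0 ≤ w t) ∧ ∑ t ∈ Ico i0 (i0 + L), w t = 1 ∧
    (∀ t ∈ Ico i0 (i0 + L), 1 ≤ pos t ∧ pos t * ln t ≤ D) ∧
    ∀ S, GoodM u S → ∑ t ∈ Ico i0 (i0 + L), w t * ind (HitM S (pos t) (ln t)) ≤ β

/-- the negation of the theorem -/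
def NegM (u : ℤ) (ρ : ℝ) : Prop := ∀ C : ℕ → ℕ, ∃ (v : ℕ → ℕ) (p : ℕ → ℝ) (s : ℕ),
  (∀ j, 1 ≤ v j) ∧ (∀ j, 0 ≤ p j) ∧ ∑ j ∈ range s, p j = 1 ∧
    ∀ S, GoodM u S → ∑ j ∈ range s, p j * ind (HitM S (v j) (C j)) ≤ ρ

end Pool.Agent.N790.BP
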