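import Mathlib
import Pool.Agent.N790.BP.MLim

/-! The multiplicative version: arrays of positive integers. -/

set_option autoImplicit false

namespace Pool.Agent.N790.BP

open Finset Filter Topology

/-- Claim 2 for countable index sets -/
theorem claim3M {ι : Type} [Encodable ι] (u : ℤ) (hu : u = 1 ∨ u = -1) (ε : ℝ)
    (hε : 0 < ε) :
    ∃ C : ι → ℕ, ∀ (v : ι → ℕ), (∀ x, 1 ≤ v x) → ∀ (T : ℕ → Finset ι) (p : ℕ → ι → ℝ),
      (∀ s x, 0 ≤ p s x) → (∀ s, ∑ x ∈ T s, p s x = 1) →
      ∃ S, GoodM u S ∧ ∃ᶠ s in atTop, 1 - ε ≤ ∑ x ∈ T s, p s x * ind (HitM S (v x) (C x)) := by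
  classical
  obtain ⟨C, hC⟩ := claim2M u hu ε hε
  refine ⟨fun x => C (Encodable.encode x), fun v hv T p hp hp1 => ?_⟩
  set n : ℕ → ℕ := fun s => ((T s).image Encodable.encode).sup id + 1 with hn
  set v' : ℕ → ℕ := fun e => match Encodable.decode (α := ι) e with
    | some x => v x
    | none => 1 with hv'
  set p' : ℕ → ℕ → ℝ := fun s e => match Encodable.decode (α := ι) e with
    | some x => if x ∈ T s ∧ Encodable.encode x = e then p s x else 0
    | none => 0 with hp'
  have hve : ∀ x, v' (Encodable.encode x) = v x := by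
    intro x
    rw [hv']
    simp
  have hpe : ∀ s, ∀ x ∈ T s, p' s (Encodable.encode x) = p s x := by
    intro s x hx
    rw [hp']
    simp [hx]
  have hsum : ∀ (s : ℕ) (f : ℕ → ℝ), ∑ e ∈ range (n s), p' s e * f e =
      ∑ x ∈ T s, p s x * f (Encodable.encode x) := by
    intro s f
    have h1 : (T s).image Encodable.encode ⊆ range (n s) := by
      intro e he
      rw [Finset.mem_range]
      have := Finset.le_sup (f := id) he
      simp only [id] at this
      rw [hn]
      simp only
      omega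
    rw [← Finset.sum_subset h1]
    · rw [Finset.sum_image (fun x _ y _ h => Encodable.encode_injective h)]
      refine Finset.sum_congr rfl fun x hx => ?_
      rw [hpe s x hx]
    · intro e _ he
      have : p' s e = 0 := by
        rw [hp']
        simp only
        rcases hd : Encodable.decode (α := ι) e with _ | x
        · rfl
        · simp only
          rw [if_neg]
          rintro ⟨hx, hxe⟩
          exact he (Finset.mem_image.2 ⟨x, hx, hxe⟩)
      rw [this, zero_mul]
  obtain ⟨S, hS1, hS2⟩ := hC v' (by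
    intro e
    rw [hv']
    simp only
    rcases Encodable.decode (α := ι) e with _ | x
    · exact le_rfl
    · exact hv x) n p' (by
    intro s e
    rw [hp']
    simp only
    rcases Encodable.decode (α := ι) e with _ | x
    · exact le_rfl
    · simp only
      split_ifs
      · exact hp s x
      · exact le_rfl) (by
    intro s
    have := hsum s (fun _ => 1)
    simp only [mul_one] at this
    rw [this, hp1 s])
  refine ⟨S, hS1, hS2.mono fun s hs => ?_⟩
  rw [hsum s (fun e => ind (HitM S (v' e) (C e)))] at hs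
  simpa only [hve] using hs

/-- enumeration of a finite set -/
theorem enumN (F : Finset ℕ) : ∃ g : ℕ → ℕ, (∀ a < F.card, g a ∈ F) ∧
    ∀ f : ℕ → ℝ, ∑ a ∈ range F.card, f (g a) = ∑ v ∈ F, f v := by
  classical
  refine ⟨fun a => if h : a < F.card then (F.equivFin.symm ⟨a, h⟩ : ℕ) else 0, fun a ha => ?_, fun f => ?_⟩
  · simp only [dif_pos ha]
    exact (F.equivFin.symm ⟨a, ha⟩).2
  · rw [Finset.sum_range]
    rw [← Finset.sum_coe_sort F f]
    rw [← Equiv.sum_comp F.equivFin.symm]
    refine Finset.sum_congr rfl fun a _ => ?_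
    simp only [dif_pos a.2]

/-- many of the sets of multiples are met, so the union contains many elements -/
theorem clusterM (S : Set ℕ) (R N m v : ℕ) (hv : 1 ≤ v) (c : ℕ → ℕ) (hc : ∀ i < N, c i ≤ R)
    (hm : (m : ℝ) ≤ ∑ i ∈ range N, ind (HitM S (v * (R + 1) ^ i) (c i))) :
    m ≤ (S ∩ {x | ∃ k, 1 ≤ k ∧ k ≤ (R + 1) ^ N ∧ x = v * k}).ncard := by
  classical
  set H : Finset ℕ := (range N).filter (fun i => HitM S (v * (R + 1) ^ i) (c i)) with hH
  have h1 : ∑ i ∈ range N, ind (HitM S (v * (R + 1) ^ i) (c i)) = H.card := by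
    rw [hH, Finset.card_filter]
    push_cast
    refine Finset.sum_congr rfl fun i _ => ?_
    by_cases h : HitM S (v * (R + 1) ^ i) (c i)
    · rw [ind_pos h, if_pos h]
    · rw [ind_neg h, if_neg h]
  have h2 : m ≤ H.card := by
    rw [h1] at hm
    exact_mod_cast hm
  refine h2.trans ?_
  have hfin : (S ∩ {x | ∃ k, 1 ≤ k ∧ k ≤ (R + 1) ^ N ∧ x = v * k}).Finite := by
    refine (Set.finite_Iic (v * (R + 1) ^ N)).subset ?_
    rintro x ⟨_, k, _, hk, rfl⟩
    exact Nat.mul_le_mul_left _ hk
  have hex : ∀ i ∈ H, ∃ k, 1 ≤ k ∧ k ≤ c i ∧ v * (R + 1) ^ i * k ∈ S := by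
    intro i hi
    rw [hH, Finset.mem_filter] at hi
    exact hi.2
  choose! κ hκ1 hκ2 hκS using hex
  have hHN : ∀ i ∈ H, i < N := by
    intro i hi
    rw [hH, Finset.mem_filter, Finset.mem_range] at hi
    exact hi.1
  have hinj : Set.InjOn (fun i => v * (R + 1) ^ i * κ i) H := by
    have key : ∀ i ∈ H, ∀ j ∈ H, i < j → v * (R + 1) ^ i * κ i < v * (R + 1) ^ j * κ j := by
      intro i hi j hj hij
      have h4 : κ i ≤ R := (hκ2 i hi).trans (hc i (hHN i hi))
      calc v * (R + 1) ^ i * κ i < v * (R + 1) ^ i * (R + 1) :=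
            Nat.mul_lt_mul_of_pos_left (by omega) (Nat.mul_pos hv (by positivity))
        _ = v * (R + 1) ^ (i + 1) := by rw [pow_succ, mul_assoc]
        _ ≤ v * (R + 1) ^ j := Nat.mul_le_mul_left _ (Nat.pow_le_pow_right (by omega) hij)
        _ ≤ v * (R + 1) ^ j * κ j := Nat.le_mul_of_pos_right _ (hκ1 j hj)
    intro i hi j hj hij
    by_contra hne
    rcases lt_or_gt_of_ne hne with h | h
    · exact absurd hij (key i hi j hj h).ne
    · exact absurd hij (key j hj i hi h).ne'
  have h3 : ((H.image (fun i => v * (R + 1) ^ i * κ i) : Finset ℕ) : Set ℕ) ⊆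
      S ∩ {x | ∃ k, 1 ≤ k ∧ k ≤ (R + 1) ^ N ∧ x = v * k} := by
    intro y hy
    rw [Finset.coe_image] at hy
    obtain ⟨i, hi, rfl⟩ := hy
    have hi' : i < N := hHN i hi
    refine ⟨hκS i hi, (R + 1) ^ i * κ i, Nat.mul_pos (by positivity) (hκ1 i hi), ?_, by
      simp only [mul_assoc]⟩
    have h4 : κ i ≤ R + 1 := ((hκ2 i hi).trans (hc i hi')).trans (Nat.le_succ _)
    calc (R + 1) ^ i * κ i ≤ (R + 1) ^ i * (R + 1) := Nat.mul_le_mul_left _ h4
      _ = (R + 1) ^ (i + 1) := by rw [pow_succ]
      _ ≤ (R + 1) ^ N := Nat.pow_le_pow_right (by omega) hi'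
  calc H.card = (H.image (fun i => v * (R + 1) ^ i * κ i)).card := (Finset.card_image_of_injOn hinj).symm
    _ = ((H.image (fun i => v * (R + 1) ^ i * κ i) : Finset ℕ) : Set ℕ).ncard := (Set.ncard_coe_finset _).symm
    _ ≤ _ := Set.ncard_le_ncard h3 hfin

open Classical in
/-- the entries `v` of `F` such that `S` has at least `m` elements among `v, 2 v, …, c v` -/
noncomputable def nearM (S : Set ℕ) (F : Finset ℕ) (m c : ℕ) : Finset ℕ :=
  F.filter (fun v => m ≤ (S ∩ {x | ∃ k, 1 ≤ k ∧ k ≤ c ∧ x = v * k}).ncard)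

open Classical in
theorem arraysM (u : ℤ) (hu : u = 1 ∨ u = -1) (k m : ℕ → ℕ) (ε : ℝ) (hε : 0 < ε) :
    ∃ C : ℕ → ℕ, ∀ V : ℕ → Finset ℕ, (∀ j, ∀ v ∈ V j, 1 ≤ v) → (∀ j, (V j).card ≤ k j) → ∀ (n : ℕ → ℕ) (p : ℕ → ℕ → ℝ),
      (∀ s j, 0 ≤ p s j) → (∀ s, ∑ j ∈ range (n s), p s j = 1) →
      ∃ S, GoodM u S ∧ ∃ᶠ s in atTop, 1 - ε ≤
        ∑ j ∈ (range (n s)).filter (fun j => (1 - ε) * (V j).card ≤ (nearM S (V j) (m j) (C j)).card), p s j := by
  -- the number of intervals near each entry
  set N : ℕ → ℕ := fun j => 2 * m j + 1 with hN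
  obtain ⟨C, hC⟩ := claim3M (ι := Σ _ : ℕ, ℕ × ℕ) u hu (ε ^ 2 / 2) (by positivity)
  set R : ℕ → ℕ := fun j => (range (k j + 1) ×ˢ range (N j)).sup (fun y => C ⟨j, y⟩) with hR
  set C' : ℕ → ℕ := fun j => (R j + 1) ^ N j with hC'
  refine ⟨C', fun V hVp hV n p hp hp1 => ?_⟩
  set V' : ℕ → Finset ℕ := fun j => if V j = ∅ then {1} else V j with hV'
  have hV'c : ∀ j, 1 ≤ (V' j).card ∧ (V' j).card ≤ k j + 1 := by
    intro j
    rw [hV']
    simp only
    split_ifs with h
    · simp
    · exact ⟨Finset.card_pos.2 (Finset.nonempty_iff_ne_empty.2 h), (hV j).trans (Nat.le_succ _)⟩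
  choose g hg1 hg2 using fun j => enumN (V' j)
  have hV'p : ∀ j, ∀ v ∈ V' j, 1 ≤ v := by
    intro j v hv
    rw [hV'] at hv
    simp only at hv
    split_ifs at hv with h
    · rw [Finset.mem_singleton] at hv
      omega
    · exact hVp j v hv
  set w : (Σ _ : ℕ, ℕ × ℕ) → ℕ := fun x =>
    (if x.2.1 < (V' x.1).card then g x.1 x.2.1 else 1) * (R x.1 + 1) ^ x.2.2 with hw
  set c : ℕ → ℕ := fun j => (V' j).card with hc
  set P : ℕ → (Σ _ : ℕ, ℕ × ℕ) → ℝ := fun s x => p s x.1 / (c x.1 * N x.1) with hP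
  have hcpos : ∀ j, (0 : ℝ) < c j := fun j => by exact_mod_cast (hV'c j).1
  have hNpos : ∀ j, (0 : ℝ) < N j := fun j => by rw [hN]; positivity
  obtain ⟨S, hS1, hS2⟩ := hC w (by
    intro x
    rw [hw]
    refine Nat.mul_pos ?_ (by positivity)
    split_ifs with h
    · exact hV'p _ _ (hg1 _ _ h)
    · exact one_pos)
    (fun s => (range (n s)).sigma (fun j => range (c j) ×ˢ range (N j))) P
    (fun s x => div_nonneg (hp s x.1) (mul_nonneg (hcpos _).le (hNpos _).le)) (by
    intro s
    rw [Finset.sum_sigma, ← hp1 s]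
    refine Finset.sum_congr rfl fun j _ => ?_
    rw [hP]
    simp only
    rw [Finset.sum_const, Finset.card_product, Finset.card_range, Finset.card_range, nsmul_eq_mul]
    have h1 := hcpos j
    have h2 := hNpos j
    push_cast
    field_simp)
  refine ⟨S, hS1, hS2.mono fun s hs => ?_⟩
  rw [Finset.sum_sigma] at hs
  -- the contribution of one index
  set good : ℕ → Prop := fun j => (1 - ε) * (V j).card ≤ (nearM S (V j) (m j) (C' j)).card with hgood
  have hone : ∀ j, ∑ y ∈ range (c j) ×ˢ range (N j), P s ⟨j, y⟩ * ind (HitM S (w ⟨j, y⟩) (C ⟨j, y⟩)) ≤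
      p s j * (if good j then 1 else 1 - ε / 2) := by
    intro j
    have e1 : ∑ y ∈ range (c j) ×ˢ range (N j), P s ⟨j, y⟩ * ind (HitM S (w ⟨j, y⟩) (C ⟨j, y⟩)) =
        p s j / (c j * N j) * ∑ a ∈ range (c j), ∑ i ∈ range (N j),
          ind (HitM S (g j a * (R j + 1) ^ i) (C ⟨j, (a, i)⟩)) := by
      rw [Finset.sum_product, Finset.mul_sum]
      refine Finset.sum_congr rfl fun a ha => ?_
      rw [Finset.mul_sum]
      refine Finset.sum_congr rfl fun i _ => ?_
      rw [hw]
      simp only
      rw [if_pos (show a < (V' j).card from Finset.mem_range.1 ha)]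
    rw [e1]
    -- bounds for one entry
    have hRj : ∀ a < c j, ∀ i < N j, C ⟨j, (a, i)⟩ ≤ R j := by
      intro a ha i hi
      have hmem : (a, i) ∈ range (k j + 1) ×ˢ range (N j) := by
        rw [Finset.mem_product, Finset.mem_range, Finset.mem_range]
        exact ⟨lt_of_lt_of_le ha (hV'c j).2, hi⟩
      exact Finset.le_sup (f := fun y => C ⟨j, y⟩) hmem
    have hrow : ∀ a < c j, ∑ i ∈ range (N j), ind (HitM S (g j a * (R j + 1) ^ i) (C ⟨j, (a, i)⟩)) ≤
        N j * (if g j a ∈ nearM S (V' j) (m j) (C' j) then 1 else 1 / 2) := by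
      intro a ha
      by_cases hn : g j a ∈ nearM S (V' j) (m j) (C' j)
      · rw [if_pos hn, mul_one]
        calc ∑ i ∈ range (N j), ind (HitM S (g j a * (R j + 1) ^ i) (C ⟨j, (a, i)⟩))
            ≤ ∑ i ∈ range (N j), (1 : ℝ) := Finset.sum_le_sum fun i _ => ind_le_one _
          _ = N j := by simp
      · rw [if_neg hn]
        by_contra hlt
        push Not at hlt
        apply hn
        unfold nearM
        rw [Finset.mem_filter]
        refine ⟨hg1 j a ha, ?_⟩
        refine clusterM S (R j) (N j) (m j) (g j a) (hV'p j _ (hg1 j a ha))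
          (fun i => C ⟨j, (a, i)⟩) (fun i hi => hRj a ha i hi) ?_
        · refine le_trans ?_ hlt.le
          rw [hN]
          push_cast
          linarith
    have hrows : ∑ a ∈ range (c j), ∑ i ∈ range (N j),
        ind (HitM S (g j a * (R j + 1) ^ i) (C ⟨j, (a, i)⟩)) ≤
        N j * (c j / 2 + (nearM S (V' j) (m j) (C' j)).card / 2) := by
      calc ∑ a ∈ range (c j), ∑ i ∈ range (N j),
            ind (HitM S (g j a * (R j + 1) ^ i) (C ⟨j, (a, i)⟩))
          ≤ ∑ a ∈ range (c j), (N j : ℝ) * (if g j a ∈ nearM S (V' j) (m j) (C' j) then 1 else 1 / 2) :=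
            Finset.sum_le_sum fun a ha => hrow a (Finset.mem_range.1 ha)
        _ = ∑ v ∈ V' j, (N j : ℝ) * (if v ∈ nearM S (V' j) (m j) (C' j) then 1 else 1 / 2) :=
            hg2 j (fun v => (N j : ℝ) * (if v ∈ nearM S (V' j) (m j) (C' j) then 1 else 1 / 2))
        _ = N j * ∑ v ∈ V' j, ((1 : ℝ) / 2 + if v ∈ nearM S (V' j) (m j) (C' j) then 1 / 2 else 0) := by
            rw [Finset.mul_sum]
            refine Finset.sum_congr rfl fun v _ => ?_
            split_ifs <;> norm_num
        _ = N j * (c j / 2 + (nearM S (V' j) (m j) (C' j)).card / 2) := by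
            congr 1
            rw [Finset.sum_add_distrib, Finset.sum_const, nsmul_eq_mul, ← Finset.sum_filter,
              Finset.sum_const, nsmul_eq_mul]
            have e2 : (V' j).filter (fun v => v ∈ nearM S (V' j) (m j) (C' j)) =
                nearM S (V' j) (m j) (C' j) := by
              ext v
              rw [Finset.mem_filter]
              constructor
              · exact fun h => h.2
              · intro h
                refine ⟨?_, h⟩
                unfold nearM at h
                rw [Finset.mem_filter] at h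
                exact h.1
            rw [e2]
            ring
    have hcN : 0 < (c j : ℝ) * N j := mul_pos (hcpos j) (hNpos j)
    have hnearle : ((nearM S (V' j) (m j) (C' j)).card : ℝ) ≤ c j := by
      have : (nearM S (V' j) (m j) (C' j)).card ≤ (V' j).card := by
        unfold nearM
        exact Finset.card_filter_le _ _
      exact_mod_cast this
    have hfin : ∑ a ∈ range (c j), ∑ i ∈ range (N j),
        ind (HitM S (g j a * (R j + 1) ^ i) (C ⟨j, (a, i)⟩)) ≤
        (c j * N j) * (if good j then 1 else 1 - ε / 2) := by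
      refine hrows.trans ?_
      have hN0 := hNpos j
      split_ifs with hgj
      · nlinarith
      · -- the entry is bad, so `V j` is not empty
        have hVne : V j ≠ ∅ := by
          intro h0
          apply hgj
          rw [hgood]
          simp only
          rw [h0]
          simp
        have hVV : V' j = V j := by
          rw [hV']
          simp only
          rw [if_neg hVne]
        rw [hgood] at hgj
        simp only at hgj
        push Not at hgj
        have hcj : (c j : ℝ) = (V j).card := by rw [hc]; simp only; rw [hVV]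
        rw [hVV, hcj]
        nlinarith
    calc p s j / (c j * N j) * ∑ a ∈ range (c j), ∑ i ∈ range (N j),
          ind (HitM S (g j a * (R j + 1) ^ i) (C ⟨j, (a, i)⟩))
        ≤ p s j / (c j * N j) * ((c j * N j) * (if good j then 1 else 1 - ε / 2)) :=
          mul_le_mul_of_nonneg_left hfin (div_nonneg (hp s j) hcN.le)
      _ = p s j * (if good j then 1 else 1 - ε / 2) := by
          rw [← mul_assoc, div_mul_cancel₀ _ hcN.ne']
  have htot : 1 - ε ^ 2 / 2 ≤ ∑ j ∈ range (n s), p s j * (if good j then 1 else 1 - ε / 2) :=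
    hs.trans (Finset.sum_le_sum fun j _ => hone j)
  have e3 : ∑ j ∈ range (n s), p s j * (if good j then 1 else 1 - ε / 2) =
      (1 - ε / 2) * ∑ j ∈ range (n s), p s j + ε / 2 * ∑ j ∈ (range (n s)).filter good, p s j := by
    rw [Finset.sum_filter, Finset.mul_sum, Finset.mul_sum, ← Finset.sum_add_distrib]
    refine Finset.sum_congr rfl fun j _ => ?_
    by_cases hgj : good j
    · rw [if_pos hgj, if_pos hgj]; ring
    · rw [if_neg hgj, if_neg hgj]; ring
  rw [e3, hp1 s] at htot
  have h5 : ε / 2 * (1 - ε) ≤ ε / 2 * ∑ j ∈ (range (n s)).filter good, p s j := by nlinarith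
  exact le_of_mul_le_mul_left h5 (by linarith)

end Pool.Agent.N790.BP
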